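import Mathlib

/-! MP_1ad228_nt: unramified values of functions: two definitions used in `HNF.InBr`, `HNE.InBr`, `ZS.InBr` -/

set_option autoImplicit false

namespace ValBr

/-- The element `a` of the fraction field `L` of `O` is not zero and equal to the unit `u` of `O` times a square of `L`. -/
def UnitSq {O L : Type} [CommRing O] [Field L] [Algebra O L] (u : Oˣ) (a : L) : Prop :=
  a ≠ 0 ∧ ∃ s : L, a = algebraMap O L u * s ^ 2

/-- The element `a` of the fraction field `L` of `O` belongs to `O`, and the homomorphism `f` from `O` to the field `M` maps it to `b`. -/
def Maps {O L M : Type} [CommRing O] [Field L] [Algebra O L] [Field M] (f : O →+* M) (a : L) (b : M) : Prop :=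
  ∃ c : O, algebraMap O L c = a ∧ f c = b

end ValBr
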