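import Pool.Agent.Lib.MP_1ad228_ntE.Defs
import Pool.Agent.Lib.MP_1ad228_ntBr.Def

/-!
# MP_1ad228_nt: the Brauer classes `(v, β)` on the surfaces of `Pool/Agent/Lib/MP_1ad228_ntE/Defs.lean`
-/

set_option autoImplicit false

namespace HNE

/-- For every `β ∈ ℚ*` the class `(v, β)` belongs to the Brauer group of the surface, and its value at a point `P` is `(val P, β)`.

Precisely: let `O` be a valuation ring which contains `ℚ`, and `P` a point of the surface over the fraction field of `O`.  Then `val P` is not zero and equal to
`u s²`, where `u` is a unit of `O`; and if `P` has coordinates `Q` in `O` and a homomorphism `f` from `O` to a field maps `P` to the point `R` then `f(u)` is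
`val R`, up to squares.

(So the quaternion algebra `(val P, β) = (u, β)` is unramified over `O`, and its image under `f` is `(val R, β)`.  For the generic point `P`, over the function
field of the surface, `val P` is the function `v`: hence the class `(v, β)` is unramified, i.e. it belongs to the Brauer group of the surface if this is smooth,
and its value at every point `R` is `(val R, β)`.) -/
def InBr {m n : ℕ} (q : Dt m n) : Prop :=
  ∀ (O : Type) [CommRing O] [IsDomain O] [ValuationRing O] [Algebra ℚ O] (F : Type) [Field F] (P : Pt F q)
    [Algebra O P.K] [IsFractionRing O P.K],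
    ∃ u : Oˣ, ValBr.UnitSq u P.val ∧
      ∀ (E : Type) [Field E] (R : Pt E q) (f : O →+* R.K), (∀ i, ValBr.Maps f (P.P i) (R.P i)) → IsSquare (f u * R.val)

end HNE
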