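import Pool.Agent.Lib.MP_1ad228_ntBr.Val
import Pool.Agent.Lib.MP_1ad228_ntBr.EDef

/-! MP_1ad228_nt: `HNE.InBr` for smooth surfaces -/

set_option autoImplicit false

namespace HNE

variable {m n : ℕ}

theorem br_vV_map {R S : Type} [CommRing R] [CommRing S] (f : R →+* S) (v : ℤ × ℤ × ℤ) (x z : R) :
    f (vV v x z) = vV v (f x) (f z) := by
  simp [vV]

theorem br_vB_map {R S : Type} [CommRing R] [CommRing S] (f : R →+* S) {k l : ℕ} (G : Fin k → Fin l → ℤ) (x z y t : R) :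
    f (vB G x z y t) = vB G (f x) (f z) (f y) (f t) := by
  simp [vB]

theorem br_vV_smul {R : Type} [CommRing R] (v : ℤ × ℤ × ℤ) (c x z : R) :
    vV v (c * x) (c * z) = c ^ 2 * vV v x z := by
  simp only [vV]
  ring

theorem br_vB_smul {R : Type} [CommRing R] {k l : ℕ} (G : Fin k → Fin l → ℤ) (c d x z y t : R) :
    vB G (c * x) (c * z) (d * y) (d * t) = c ^ (k - 1) * d ^ (l - 1) * vB G x z y t := by
  simp only [vB, Finset.mul_sum]
  refine Finset.sum_congr rfl fun i _ => Finset.sum_congr rfl fun j _ => ?_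
  have h1 : c ^ (k - 1) = c ^ (i : ℕ) * c ^ (k - 1 - (i : ℕ)) := by
    rw [← pow_add]
    congr 1
    have := i.2
    omega
  have h2 : d ^ (l - 1) = d ^ (j : ℕ) * d ^ (l - 1 - (j : ℕ)) := by
    rw [← pow_add]
    congr 1
    have := j.2
    omega
  rw [h1, h2]
  simp only [mul_pow]
  ring

/-- a homomorphism from a finitely generated algebra over the rational numbers to the complex numbers -/
theorem br_toC {K : Type} [Field K] [CharZero K] {N : ℕ} (a : Fin N → K) :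
    Nonempty (Algebra.adjoin ℚ (Set.range a) →ₐ[ℚ] ℂ) := by
  have hft : Algebra.FiniteType ℚ (Algebra.adjoin ℚ (Set.range a)) := by
    rw [← Subalgebra.fg_iff_finiteType]
    exact Subalgebra.fg_def.2 ⟨_, Set.finite_range a, rfl⟩
  obtain ⟨M, hM⟩ := Ideal.exists_maximal (Algebra.adjoin ℚ (Set.range a))
  let _ : Field (Algebra.adjoin ℚ (Set.range a) ⧸ M) := Ideal.Quotient.field M
  have hft2 : Algebra.FiniteType ℚ (Algebra.adjoin ℚ (Set.range a) ⧸ M) :=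
    Algebra.FiniteType.of_surjective (Ideal.Quotient.mkₐ ℚ M) (Ideal.Quotient.mkₐ_surjective ℚ M)
  have hfin : Module.Finite ℚ (Algebra.adjoin ℚ (Set.range a) ⧸ M) := finite_of_finite_type_of_isJacobsonRing _ _
  have halg : Algebra.IsAlgebraic ℚ (Algebra.adjoin ℚ (Set.range a) ⧸ M) := Algebra.IsAlgebraic.of_finite _ _
  exact ⟨(IsAlgClosed.lift : (Algebra.adjoin ℚ (Set.range a) ⧸ M) →ₐ[ℚ] ℂ).comp (Ideal.Quotient.mkₐ ℚ M)⟩

theorem br_pder {P : Fin 7 → ℂ} {p r : MvPolynomial (Fin 7) ℤ} (j : Fin 7) (hp : MvPolynomial.aeval P p = 0)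
    (hr : MvPolynomial.aeval P r = 0) : MvPolynomial.aeval P (MvPolynomial.pderiv j (p * r)) = 0 := by
  rw [Derivation.leibniz, map_add, smul_eq_mul, smul_eq_mul, map_mul, map_mul, hp, hr]
  ring

/-- a smooth surface has no complex point at which `v = w = D = 0` -/
theorem br_noZeroC {q : Dt m n} (hq : Smooth q) {x z y t : ℂ} (h1 : ¬ (x = 0 ∧ z = 0)) (h2 : ¬ (y = 0 ∧ t = 0))
    (hv : vV q.1.1 x z = 0) (hw : vV q.1.2 y t = 0) (hG : vB q.2.1 x z y t = 0) : False := by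
  have hV : fV q (![x, z, y, t, 0, 0, 0] : Fin 7 → ℂ) = 0 := by simpa [fV] using hv
  have hW : fW q (![x, z, y, t, 0, 0, 0] : Fin 7 → ℂ) = 0 := by simpa [fW] using hw
  have hD : fD q (![x, z, y, t, 0, 0, 0] : Fin 7 → ℂ) = 0 := by simpa [fD] using hG
  have hP : IsPt q (![x, z, y, t, 0, 0, 0] : Fin 7 → ℂ) := by
    refine ⟨by simpa using h1, by simpa using h2, ?_⟩
    funext i
    fin_cases i <;> simp [eqs, hV, hW, hD]
  have hr := hq _ hP
  have hX : ∀ i : Fin 7, MvPolynomial.aeval (![x, z, y, t, 0, 0, 0] : Fin 7 → ℂ) (MvPolynomial.X i : MvPolynomial (Fin 7) ℤ) =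
      (![x, z, y, t, 0, 0, 0] : Fin 7 → ℂ) i := fun i => MvPolynomial.aeval_X _ _
  have a4 := hX 4
  have a5 := hX 5
  have a6 := hX 6
  have aV : MvPolynomial.aeval (![x, z, y, t, 0, 0, 0] : Fin 7 → ℂ) (fV q (MvPolynomial.X : Fin 7 → MvPolynomial (Fin 7) ℤ)) = 0 := by
    refine Eq.trans ?_ hV
    have e := br_vV_map (MvPolynomial.aeval (![x, z, y, t, 0, 0, 0] : Fin 7 → ℂ) : MvPolynomial (Fin 7) ℤ →ₐ[ℤ] ℂ).toRingHom q.1.1
      (MvPolynomial.X 0) (MvPolynomial.X 1)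
    simpa [fV] using e
  have aW : MvPolynomial.aeval (![x, z, y, t, 0, 0, 0] : Fin 7 → ℂ) (fW q (MvPolynomial.X : Fin 7 → MvPolynomial (Fin 7) ℤ)) = 0 := by
    refine Eq.trans ?_ hW
    have e := br_vV_map (MvPolynomial.aeval (![x, z, y, t, 0, 0, 0] : Fin 7 → ℂ) : MvPolynomial (Fin 7) ℤ →ₐ[ℤ] ℂ).toRingHom q.1.2
      (MvPolynomial.X 2) (MvPolynomial.X 3)
    simpa [fW] using e
  have aD : MvPolynomial.aeval (![x, z, y, t, 0, 0, 0] : Fin 7 → ℂ) (fD q (MvPolynomial.X : Fin 7 → MvPolynomial (Fin 7) ℤ)) = 0 := by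
    refine Eq.trans ?_ hG
    have b4 : MvPolynomial.aeval (![x, z, y, t, 0, 0, 0] : Fin 7 → ℂ) (MvPolynomial.X 4 : MvPolynomial (Fin 7) ℤ) = 0 := a4
    have e1 := br_vB_map (MvPolynomial.aeval (![x, z, y, t, 0, 0, 0] : Fin 7 → ℂ) : MvPolynomial (Fin 7) ℤ →ₐ[ℤ] ℂ).toRingHom q.2.1
      (MvPolynomial.X 0) (MvPolynomial.X 1) (MvPolynomial.X 2) (MvPolynomial.X 3)
    simp only [fD, map_add, map_mul, b4, zero_mul, add_zero]
    simpa using e1
  have hM : (Matrix.of fun (i : Fin 6) (j : Fin 7) =>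
      MvPolynomial.aeval (![x, z, y, t, 0, 0, 0] : Fin 7 → ℂ)
        (MvPolynomial.pderiv j (eqs q (MvPolynomial.X : Fin 7 → MvPolynomial (Fin 7) ℤ) i))) = 0 := by
    ext i j
    have b4 : MvPolynomial.aeval (![x, z, y, t, 0, 0, 0] : Fin 7 → ℂ) (MvPolynomial.X 4 : MvPolynomial (Fin 7) ℤ) = 0 := a4
    have b5 : MvPolynomial.aeval (![x, z, y, t, 0, 0, 0] : Fin 7 → ℂ) (MvPolynomial.X 5 : MvPolynomial (Fin 7) ℤ) = 0 := a5
    have b6 : MvPolynomial.aeval (![x, z, y, t, 0, 0, 0] : Fin 7 → ℂ) (MvPolynomial.X 6 : MvPolynomial (Fin 7) ℤ) = 0 := a6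
    rw [Matrix.of_apply, Matrix.zero_apply]
    have key : ∀ p r p' r' : MvPolynomial (Fin 7) ℤ,
        MvPolynomial.aeval (![x, z, y, t, 0, 0, 0] : Fin 7 → ℂ) p = 0 → MvPolynomial.aeval (![x, z, y, t, 0, 0, 0] : Fin 7 → ℂ) r = 0 →
        MvPolynomial.aeval (![x, z, y, t, 0, 0, 0] : Fin 7 → ℂ) p' = 0 → MvPolynomial.aeval (![x, z, y, t, 0, 0, 0] : Fin 7 → ℂ) r' = 0 →
        MvPolynomial.aeval (![x, z, y, t, 0, 0, 0] : Fin 7 → ℂ) (MvPolynomial.pderiv j (p * r - p' * r')) = 0 := by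
      intro p r p' r' h1 h2 h3 h4
      rw [map_sub, map_sub, br_pder j h1 h2, br_pder j h3 h4, sub_zero]
    fin_cases i
    · have := key _ _ _ _ b4 b4 aV aW
      rw [← sq] at this
      exact this
    · have := key _ _ _ _ b5 b5 aV aD
      rw [← sq] at this
      exact this
    · have := key _ _ _ _ b6 b6 aW aD
      rw [← sq] at this
      exact this
    · exact key _ _ _ _ b4 b5 aV b6
    · exact key _ _ _ _ b4 b6 aW b5
    · exact key _ _ _ _ b5 b6 aD b4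
  rw [hM, Matrix.rank_zero] at hr
  omega

/-- the same over all fields of characteristic zero -/
theorem br_noZero {q : Dt m n} (hq : Smooth q) {K : Type} [Field K] [CharZero K] {x z y t : K} (h1 : ¬ (x = 0 ∧ z = 0))
    (h2 : ¬ (y = 0 ∧ t = 0)) (hv : vV q.1.1 x z = 0) (hw : vV q.1.2 y t = 0) : vB q.2.1 x z y t ≠ 0 := by
  intro hG
  obtain ⟨φ⟩ := br_toC (![x, z, y, t, x⁻¹, z⁻¹, y⁻¹, t⁻¹] : Fin 8 → K)
  have mem : ∀ i, (![x, z, y, t, x⁻¹, z⁻¹, y⁻¹, t⁻¹] : Fin 8 → K) i ∈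
      Algebra.adjoin ℚ (Set.range (![x, z, y, t, x⁻¹, z⁻¹, y⁻¹, t⁻¹] : Fin 8 → K)) := fun i =>
    Algebra.subset_adjoin (Set.mem_range_self i)
  have ne : ∀ (s : K) (h : s ∈ Algebra.adjoin ℚ (Set.range (![x, z, y, t, x⁻¹, z⁻¹, y⁻¹, t⁻¹] : Fin 8 → K)))
      (_ : s⁻¹ ∈ Algebra.adjoin ℚ (Set.range (![x, z, y, t, x⁻¹, z⁻¹, y⁻¹, t⁻¹] : Fin 8 → K))), φ ⟨s, h⟩ = 0 → s = 0 := by
    intro s h h' h0
    by_contra hs
    have e : (⟨s, h⟩ : Algebra.adjoin ℚ (Set.range (![x, z, y, t, x⁻¹, z⁻¹, y⁻¹, t⁻¹] : Fin 8 → K))) * ⟨s⁻¹, h'⟩ = 1 :=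
      Subtype.ext (mul_inv_cancel₀ hs)
    have e' := congrArg φ e
    rw [map_mul, h0, zero_mul, map_one] at e'
    exact zero_ne_one e'
  refine br_noZeroC hq (x := φ ⟨x, mem 0⟩) (z := φ ⟨z, mem 1⟩) (y := φ ⟨y, mem 2⟩) (t := φ ⟨t, mem 3⟩) ?_ ?_ ?_ ?_ ?_
  · exact fun h => h1 ⟨ne x (mem 0) (mem 4) h.1, ne z (mem 1) (mem 5) h.2⟩
  · exact fun h => h2 ⟨ne y (mem 2) (mem 6) h.1, ne t (mem 3) (mem 7) h.2⟩
  · have e := br_vV_map φ.toRingHom q.1.1 ⟨x, mem 0⟩ ⟨z, mem 1⟩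
    have e0 : vV q.1.1 (⟨x, mem 0⟩ : Algebra.adjoin ℚ (Set.range (![x, z, y, t, x⁻¹, z⁻¹, y⁻¹, t⁻¹] : Fin 8 → K))) ⟨z, mem 1⟩ = 0 := by
      apply Subtype.ext
      have e1 := br_vV_map (Subalgebra.val (Algebra.adjoin ℚ (Set.range (![x, z, y, t, x⁻¹, z⁻¹, y⁻¹, t⁻¹] : Fin 8 → K)))).toRingHom
        q.1.1 ⟨x, mem 0⟩ ⟨z, mem 1⟩
      exact e1.trans hv
    rw [e0, map_zero] at e
    exact e.symm
  · have e := br_vV_map φ.toRingHom q.1.2 ⟨y, mem 2⟩ ⟨t, mem 3⟩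
    have e0 : vV q.1.2 (⟨y, mem 2⟩ : Algebra.adjoin ℚ (Set.range (![x, z, y, t, x⁻¹, z⁻¹, y⁻¹, t⁻¹] : Fin 8 → K))) ⟨t, mem 3⟩ = 0 := by
      apply Subtype.ext
      have e1 := br_vV_map (Subalgebra.val (Algebra.adjoin ℚ (Set.range (![x, z, y, t, x⁻¹, z⁻¹, y⁻¹, t⁻¹] : Fin 8 → K)))).toRingHom
        q.1.2 ⟨y, mem 2⟩ ⟨t, mem 3⟩
      exact e1.trans hw
    rw [e0, map_zero] at e
    exact e.symm
  · have e := br_vB_map φ.toRingHom q.2.1 ⟨x, mem 0⟩ ⟨z, mem 1⟩ ⟨y, mem 2⟩ ⟨t, mem 3⟩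
    have e0 : vB q.2.1 (⟨x, mem 0⟩ : Algebra.adjoin ℚ (Set.range (![x, z, y, t, x⁻¹, z⁻¹, y⁻¹, t⁻¹] : Fin 8 → K))) ⟨z, mem 1⟩
        ⟨y, mem 2⟩ ⟨t, mem 3⟩ = 0 := by
      apply Subtype.ext
      have e1 := br_vB_map (Subalgebra.val (Algebra.adjoin ℚ (Set.range (![x, z, y, t, x⁻¹, z⁻¹, y⁻¹, t⁻¹] : Fin 8 → K)))).toRingHom
        q.2.1 ⟨x, mem 0⟩ ⟨z, mem 1⟩ ⟨y, mem 2⟩ ⟨t, mem 3⟩
      exact e1.trans hG
    rw [e0, map_zero] at e
    exact e.symm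

theorem br_pairs {O : Type} [CommRing O] {v w D a b c : O} (h1 : v * w = a ^ 2) (h2 : v * D = b ^ 2) (h3 : w * D = c ^ 2)
    {p r : O} (hp : p = v ∨ p = w ∨ p = D) (hr : r = v ∨ r = w ∨ r = D) : ∃ y : O, p * r = y ^ 2 := by
  rcases hp with rfl | rfl | rfl <;> rcases hr with rfl | rfl | rfl
  · exact ⟨_, (sq _).symm⟩
  · exact ⟨a, h1⟩
  · exact ⟨b, h2⟩
  · exact ⟨a, by rw [mul_comm, h1]⟩
  · exact ⟨_, (sq _).symm⟩
  · exact ⟨c, h3⟩
  · exact ⟨b, by rw [mul_comm, h2]⟩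
  · exact ⟨c, by rw [mul_comm, h3]⟩
  · exact ⟨_, (sq _).symm⟩

theorem br_val {F : Type} [Field F] {q : Dt m n} (P : Pt F q) :
    P.val = fV q P.P ∨ P.val = fW q P.P ∨ P.val = fD q P.P := by
  unfold Pt.val
  split_ifs
  · exact Or.inl rfl
  · exact Or.inr (Or.inl rfl)
  · exact Or.inr (Or.inr rfl)

theorem br_val_ne {F : Type} [Field F] {q : Dt m n} (hq : Smooth q) (P : Pt F q) [CharZero P.K] : P.val ≠ 0 := by
  obtain ⟨r1, r2, r3⟩ := P.isPt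
  have p0 : P.P 4 ^ 2 - fV q P.P * fW q P.P = 0 := congrFun r3 0
  unfold Pt.val
  split_ifs with g1 g2
  · exact g1
  · exact g2
  · push Not at g1 g2
    intro g3
    have g4 : P.P 4 = 0 := by
      rw [g1, zero_mul, sub_zero] at p0
      exact pow_eq_zero_iff two_ne_zero |>.1 p0
    rw [fD, g4, zero_mul, add_zero] at g3
    exact br_noZero hq r1 r2 g1 g2 g3

theorem inBr {q : Dt m n} (hm : 1 ≤ m) (hn : 1 ≤ n) (hq : Smooth q) : InBr q := by
  intro O _ _ _ _ F _ P _ _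
  have hP0 : CharZero P.K := ValBr.charZero_of (algebraMap O P.K)
  have hv0 : P.val ≠ 0 := br_val_ne hq P
  obtain ⟨h1, h2, h3⟩ := P.isPt
  have q0 : P.P 4 ^ 2 - fV q P.P * fW q P.P = 0 := congrFun h3 0
  have q1 : P.P 5 ^ 2 - fV q P.P * fD q P.P = 0 := congrFun h3 1
  have q2 : P.P 6 ^ 2 - fW q P.P * fD q P.P = 0 := congrFun h3 2
  obtain ⟨c, x', z', hc, hx, hz, hxz⟩ := ValBr.scale O h1
  obtain ⟨d, y', t', hd, hy, ht, hyt⟩ := ValBr.scale O h2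
  have eV := br_vV_map (algebraMap O P.K) q.1.1 x' z'
  have eW := br_vV_map (algebraMap O P.K) q.1.2 y' t'
  have eG := br_vB_map (algebraMap O P.K) q.2.1 x' z' y' t'
  have eH := br_vB_map (algebraMap O P.K) q.2.2 x' z' y' t'
  have sV : fV q P.P = c ^ 2 * algebraMap O P.K (vV q.1.1 x' z') := by rw [fV, hx, hz, br_vV_smul, eV]
  have sW : fW q P.P = d ^ 2 * algebraMap O P.K (vV q.1.2 y' t') := by rw [fW, hy, ht, br_vV_smul, eW]
  have ha : (P.P 4 / (c * d)) ^ 2 = algebraMap O P.K (vV q.1.1 x' z' * vV q.1.2 y' t') := by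
    rw [div_pow, div_eq_iff (pow_ne_zero 2 (mul_ne_zero hc hd)), map_mul]
    rw [sV, sW] at q0
    linear_combination q0
  obtain ⟨a, ha1⟩ := ValBr.mem_of_sq _ ha
  have ha' : vV q.1.1 x' z' * vV q.1.2 y' t' = a ^ 2 := by
    apply IsFractionRing.injective O P.K
    rw [← ha, ← ha1, map_pow]
  have sD : fD q P.P = c ^ (2 * m) * d ^ (2 * n) *
      algebraMap O P.K (vB q.2.1 x' z' y' t' + a * vB q.2.2 x' z' y' t') := by
    rw [map_add, map_mul, eG, eH, fD, hx, hz, hy, ht, br_vB_smul, br_vB_smul, ha1]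
    have e1 : c ^ (2 * m) = c * c ^ (2 * m - 1) := by
      rw [← pow_succ']
      congr 1
      omega
    have e2 : d ^ (2 * n) = d * d ^ (2 * n - 1) := by
      rw [← pow_succ']
      congr 1
      omega
    simp only [Nat.add_sub_cancel]
    rw [mul_add]
    congr 1
    rw [e1, e2]
    field_simp
  obtain ⟨E, hE⟩ : ∃ E : O, E = vB q.2.1 x' z' y' t' + a * vB q.2.2 x' z' y' t' := ⟨_, rfl⟩
  rw [← hE] at sD
  have hb : ∃ b : O, vV q.1.1 x' z' * E = b ^ 2 := by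
    refine ValBr.sq_of (t := P.P 5 / (c ^ (m + 1) * d ^ n)) _ ?_
    rw [div_pow, div_eq_iff (pow_ne_zero 2 (mul_ne_zero (pow_ne_zero _ hc) (pow_ne_zero _ hd))), map_mul]
    rw [sV, sD] at q1
    linear_combination q1
  have hcc : ∃ b : O, vV q.1.2 y' t' * E = b ^ 2 := by
    refine ValBr.sq_of (t := P.P 6 / (c ^ m * d ^ (n + 1))) _ ?_
    rw [div_pow, div_eq_iff (pow_ne_zero 2 (mul_ne_zero (pow_ne_zero _ hc) (pow_ne_zero _ hd))), map_mul]
    rw [sW, sD] at q2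
    linear_combination q2
  obtain ⟨b, hb⟩ := hb
  obtain ⟨b2, hb2⟩ := hcc
  have key : ∃ r : O, (r = vV q.1.1 x' z' ∨ r = vV q.1.2 y' t' ∨ r = E) ∧ IsUnit r := by
    by_contra hcon
    push Not at hcon
    have hz0 : CharZero (IsLocalRing.ResidueField O) := ValBr.charZero_of (IsLocalRing.residue O)
    have k3 : vV q.1.1 (IsLocalRing.residue O x') (IsLocalRing.residue O z') = 0 := by
      rw [← br_vV_map]
      exact (IsLocalRing.residue_eq_zero_iff _).2 (hcon _ (Or.inl rfl))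
    have k4 : vV q.1.2 (IsLocalRing.residue O y') (IsLocalRing.residue O t') = 0 := by
      rw [← br_vV_map]
      exact (IsLocalRing.residue_eq_zero_iff _).2 (hcon _ (Or.inr (Or.inl rfl)))
    have k5 := (IsLocalRing.residue_eq_zero_iff _).2 (hcon _ (Or.inr (Or.inr rfl)))
    have k6 : IsLocalRing.residue O a = 0 := by
      have := congrArg (IsLocalRing.residue O) ha'
      rw [map_pow, map_mul, br_vV_map, k3, zero_mul] at this
      exact pow_eq_zero_iff two_ne_zero |>.1 this.symm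
    rw [hE, map_add, map_mul, k6, zero_mul, add_zero, br_vB_map] at k5
    exact br_noZero hq (ValBr.scale_res hxz) (ValBr.scale_res hyt) k3 k4 k5
  have hus : ∃ (u : Oˣ) (s : P.K), P.val = algebraMap O P.K u * s ^ 2 := by
    obtain ⟨r, hr, hru⟩ := key
    have hsc : ∃ (e : P.K) (p : O), (p = vV q.1.1 x' z' ∨ p = vV q.1.2 y' t' ∨ p = E) ∧
        P.val = e ^ 2 * algebraMap O P.K p := by
      rcases br_val P with h | h | h
      · exact ⟨c, _, Or.inl rfl, by rw [h, sV]⟩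
      · exact ⟨d, _, Or.inr (Or.inl rfl), by rw [h, sW]⟩
      · refine ⟨c ^ m * d ^ n, _, Or.inr (Or.inr rfl), ?_⟩
        rw [h, sD, mul_pow, ← pow_mul, ← pow_mul, mul_comm m 2, mul_comm n 2]
    obtain ⟨e, p, hp, hpe⟩ := hsc
    obtain ⟨u, s, hs⟩ := ValBr.unitSq P.K (br_pairs ha' hb hb2 hp hr) hru
    refine ⟨u, e * s, ?_⟩
    rw [hpe, hs]
    ring
  obtain ⟨u, s, hs⟩ := hus
  refine ⟨u, ⟨hv0, s, hs⟩, ?_⟩
  intro E' _ R f hM
  choose Q hQP hQR using hM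
  have d1 : algebraMap O P.K (fV q Q) = fV q P.P := by rw [fV, br_vV_map, hQP, hQP, fV]
  have d2 : algebraMap O P.K (fW q Q) = fW q P.P := by rw [fW, br_vV_map, hQP, hQP, fW]
  have d3 : algebraMap O P.K (fD q Q) = fD q P.P := by
    rw [fD, map_add, map_mul, br_vB_map, br_vB_map, hQP, hQP, hQP, hQP, hQP, fD]
  have f1 : f (fV q Q) = fV q R.P := by rw [fV, br_vV_map, hQR, hQR, fV]
  have f2 : f (fW q Q) = fW q R.P := by rw [fW, br_vV_map, hQR, hQR, fW]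
  have f3 : f (fD q Q) = fD q R.P := by
    rw [fD, map_add, map_mul, br_vB_map, br_vB_map, hQR, hQR, hQR, hQR, hQR, fD]
  have ha2 : fV q Q * fW q Q = Q 4 ^ 2 := by
    apply IsFractionRing.injective O P.K
    rw [map_mul, map_pow, d1, d2, hQP]
    linear_combination (-1 : P.K) * q0
  have hb2' : fV q Q * fD q Q = Q 5 ^ 2 := by
    apply IsFractionRing.injective O P.K
    rw [map_mul, map_pow, d1, d3, hQP]
    linear_combination (-1 : P.K) * q1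
  have hc2' : fW q Q * fD q Q = Q 6 ^ 2 := by
    apply IsFractionRing.injective O P.K
    rw [map_mul, map_pow, d2, d3, hQP]
    linear_combination (-1 : P.K) * q2
  have hP : ∃ p : O, (p = fV q Q ∨ p = fW q Q ∨ p = fD q Q) ∧ algebraMap O P.K p = P.val := by
    rcases br_val P with h | h | h
    · exact ⟨_, Or.inl rfl, by rw [h, d1]⟩
    · exact ⟨_, Or.inr (Or.inl rfl), by rw [h, d2]⟩
    · exact ⟨_, Or.inr (Or.inr rfl), by rw [h, d3]⟩
  have hR : ∃ p : O, (p = fV q Q ∨ p = fW q Q ∨ p = fD q Q) ∧ f p = R.val := by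
    rcases br_val R with h | h | h
    · exact ⟨_, Or.inl rfl, by rw [h, f1]⟩
    · exact ⟨_, Or.inr (Or.inl rfl), by rw [h, f2]⟩
    · exact ⟨_, Or.inr (Or.inr rfl), by rw [h, f3]⟩
  obtain ⟨p, hp, hp'⟩ := hP
  obtain ⟨r, hr, hr'⟩ := hR
  rw [← hr']
  refine ValBr.value f u (s := s) (v := p) (by rw [hp', hs]) ?_ (br_pairs ha2 hb2' hc2' hp hr)
  rintro rfl
  exact hv0 (by rw [← hp', map_zero])

end HNE
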