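import Pool.Agent.Lib.MP_1ad228_ntE.Defs

/-!
# MP_1ad228_nt: the surfaces without adelic zero-cycles of odd degree are dense
-/

set_option autoImplicit false

namespace HNE

/-- the index set of the coefficients of `v`, `w`, `G`, `H` -/
abbrev Idx (m n : ℕ) : Type := (Fin 3 ⊕ Fin 3) ⊕ (Fin (2 * m + 1) × Fin (2 * n + 1) ⊕ Fin (2 * m) × Fin (2 * n))

/-- the coefficients of `v`, `w`, `G`, `H` -/
def coef {m n : ℕ} (q : Dt m n) : Idx m n → ℤ :=
  Sum.elim (Sum.elim ![q.1.1.1, q.1.1.2.1, q.1.1.2.2] ![q.1.2.1, q.1.2.2.1, q.1.2.2.2])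
    (Sum.elim (fun i => q.2.1 i.1 i.2) fun i => q.2.2 i.1 i.2)

/-- The smooth surfaces which have points over `ℝ` and over all `ℚ_p`, but no adelic zero-cycle of odd degree orthogonal to the classes `(v, β)`, `β ∈ ℚ*`, and no
zero-cycle of odd degree over `ℚ`, are Zariski dense in the family: for every nonzero polynomial `Φ` in the coefficients of `v`, `w`, `G`, `H` there is such a surface
with `Φ(v, w, G, H) ≠ 0`. -/
def IsDense (m n : ℕ) : Prop :=
  ∀ Φ : MvPolynomial (Idx m n) ℚ, Φ ≠ 0 → ∃ q : Dt m n,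
    (Smooth q ∧ HasPoint ℝ q ∧ ∀ (p : ℕ) [Fact p.Prime], HasPoint ℚ_[p] q) ∧ ¬ Adelic q ∧ ¬ Global q ∧
    MvPolynomial.eval (fun i => (coef q i : ℚ)) Φ ≠ 0

end HNE
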