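import Pool.Agent.Lib.MP_1ad228_ntBr.Sz
import Pool.Agent.Lib.MP_1ad228_ntBr.EDDef
import Pool.Agent.Lib.MP_1ad228_ntE.EFin

/-! MP_1ad228_nt: `HNE.IsDense` -/

set_option autoImplicit false

namespace HNE

theorem coef_inj {m n : ℕ} : Function.Injective (coef : Dt m n → Idx m n → ℤ) := by
  intro q q' h
  have h1 := congrFun h (Sum.inl (Sum.inl 0))
  have h2 := congrFun h (Sum.inl (Sum.inl 1))
  have h3 := congrFun h (Sum.inl (Sum.inl 2))
  have h4 := congrFun h (Sum.inl (Sum.inr 0))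
  have h5 := congrFun h (Sum.inl (Sum.inr 1))
  have h6 := congrFun h (Sum.inl (Sum.inr 2))
  simp only [coef, Sum.elim_inl, Sum.elim_inr, Matrix.cons_val_zero, Matrix.cons_val_one, Matrix.cons_val] at h1 h2 h3 h4 h5 h6
  refine Prod.ext (Prod.ext (Prod.ext h1 (Prod.ext h2 h3)) (Prod.ext h4 (Prod.ext h5 h6))) (Prod.ext ?_ ?_)
  · funext i j
    exact congrFun h (Sum.inr (Sum.inl (i, j)))
  · funext i j
    exact congrFun h (Sum.inr (Sum.inr (i, j)))

/-- the sides of the box -/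
def brB (m n H N : ℕ) : Idx m n → ℕ := Sum.elim (fun _ => N) (fun _ => H)

theorem brB_box {m n H N : ℕ} {q : Dt m n} (h : InBox H N q) : ∀ i, |coef q i| ≤ brB m n H N i := by
  obtain ⟨⟨h1, h2, h3⟩, ⟨h4, h5, h6⟩, h7, h8⟩ := h
  rintro ((i | i) | (i | i))
  · fin_cases i
    · exact h1
    · exact h2
    · exact h3
  · fin_cases i
    · exact h4
    · exact h5
    · exact h6
  · exact h7 i.1 i.2
  · exact h8 i.1 i.2

theorem brB_prod (m n H N : ℕ) :
    ∏ i, (2 * brB m n H N i + 1) = (2 * N + 1) ^ 6 * (2 * H + 1) ^ (8 * m * n + 2 * m + 2 * n + 1) := by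
  rw [Fintype.prod_sum_type]
  congr 1
  · simp only [brB, Sum.elim_inl, Finset.prod_const, Finset.card_univ, Fintype.card_sum, Fintype.card_fin]
  · simp only [brB, Sum.elim_inr, Finset.prod_const, Finset.card_univ, Fintype.card_sum, Fintype.card_prod, Fintype.card_fin]
    congr 1
    ring

theorem br_fin (m n H N : ℕ) : {q : Dt m n | InBox H N q}.Finite := by
  have hf : {a : Idx m n → ℤ | ∀ i, |a i| ≤ brB m n H N i}.Finite := by
    refine (Set.finite_Icc (fun i => -(brB m n H N i : ℤ)) (fun i => (brB m n H N i : ℤ))).subset ?_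
    intro a ha
    exact ⟨fun i => (abs_le.1 (ha i)).1, fun i => (abs_le.1 (ha i)).2⟩
  have hm : Set.MapsTo (coef : Dt m n → Idx m n → ℤ) {q : Dt m n | InBox H N q} {a : Idx m n → ℤ | ∀ i, |a i| ≤ brB m n H N i} :=
    fun q hq => brB_box hq
  exact Set.Finite.of_injOn hm (coef_inj.injOn) hf

theorem isDense {m n : ℕ} (hm : 1 ≤ m) (hn : 1 ≤ n) : IsDense m n := by
  intro Φ hΦ
  obtain ⟨K, hK⟩ : ∃ K : ℕ, K = m + n + 3 := ⟨_, rfl⟩
  obtain ⟨⟨C', h1'⟩, c, hc, N0, h2⟩ := cyc_E m n K hm hn (by omega)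
  obtain ⟨D, h3⟩ := ValBr.sz_box hΦ
  by_contra hcon
  -- a large number `N`
  obtain ⟨A, hA⟩ : ∃ A : ℝ, A = D * 3 ^ (8 * m * n + 2 * m + 2 * n + 7) := ⟨_, rfl⟩
  have ht : Filter.Tendsto (fun N : ℕ => C' / Real.log (Real.log N) + A / N) Filter.atTop (nhds 0) := by
    have t1 : Filter.Tendsto (fun N : ℕ => C' / Real.log (Real.log N)) Filter.atTop (nhds 0) :=
      Filter.Tendsto.const_div_atTop
        (Real.tendsto_log_atTop.comp (Real.tendsto_log_atTop.comp tendsto_natCast_atTop_atTop)) C'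
    have t2 : Filter.Tendsto (fun N : ℕ => A / (N : ℝ)) Filter.atTop (nhds 0) :=
      Filter.Tendsto.const_div_atTop tendsto_natCast_atTop_atTop A
    simpa using t1.add t2
  have he := (ht.eventually (gt_mem_nhds hc)).and (Filter.eventually_ge_atTop (max 16 N0))
  obtain ⟨N, hN1, hN2⟩ := he.exists
  have hN16 : 16 ≤ N := (le_max_left _ _).trans hN2
  have hNN0 : N0 ≤ N := (le_max_right _ _).trans hN2
  have hN0 : 0 < N := by omega
  have hNr : (0 : ℝ) < N := by exact_mod_cast hN0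
  obtain ⟨H, hH⟩ : ∃ H : ℕ, H = N ^ K := ⟨_, rfl⟩
  have hNH : N ≤ H := by
    rw [hH]
    exact Nat.le_self_pow (by omega) N
  obtain ⟨hfin, hsz⟩ := h3 (brB m n H N) N hN0 (by
    rintro (i | i)
    · exact le_rfl
    · exact hNH)
  rw [brB_prod] at hsz
  have g1 := h1' N hN16
  have g2 := h2 N hNN0
  rw [← hH] at g1 g2
  -- the three sets
  have hbox := br_fin m n H N
  have e1 : Nat.card {q : Dt m n // InBox H N q ∧ (Adelic q ∨ Global q)} =
      {q : Dt m n | InBox H N q ∧ (Adelic q ∨ Global q)}.ncard := rfl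
  have e2 : Nat.card {q : Dt m n // InBox H N q ∧ Smooth q ∧ HasPoint ℝ q ∧ ∀ (p : ℕ) [Fact p.Prime], HasPoint ℚ_[p] q} =
      {q : Dt m n | InBox H N q ∧ Smooth q ∧ HasPoint ℝ q ∧ ∀ (p : ℕ) [Fact p.Prime], HasPoint ℚ_[p] q}.ncard := rfl
  rw [e1] at g1
  rw [e2] at g2
  have hsub : {q : Dt m n | InBox H N q ∧ Smooth q ∧ HasPoint ℝ q ∧ ∀ (p : ℕ) [Fact p.Prime], HasPoint ℚ_[p] q} ⊆
      {q : Dt m n | InBox H N q ∧ (Adelic q ∨ Global q)} ∪
        {q : Dt m n | InBox H N q ∧ MvPolynomial.eval (fun i => ((coef q i : ℤ) : ℚ)) Φ = 0} := by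
    rintro q ⟨a1, a2⟩
    by_cases a3 : Adelic q ∨ Global q
    · exact Or.inl ⟨a1, a3⟩
    · right
      refine ⟨a1, ?_⟩
      by_contra a4
      push Not at a3
      exact hcon ⟨q, a2, a3.1, a3.2, a4⟩
  have f1 : {q : Dt m n | InBox H N q ∧ (Adelic q ∨ Global q)}.Finite := hbox.subset fun q hq => hq.1
  have f2 : {q : Dt m n | InBox H N q ∧ MvPolynomial.eval (fun i => ((coef q i : ℤ) : ℚ)) Φ = 0}.Finite :=
    hbox.subset fun q hq => hq.1
  have k1 := Set.ncard_le_ncard hsub (f1.union f2)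
  have k2 := k1.trans (Set.ncard_union_le _ _)
  have k3 : {q : Dt m n | InBox H N q ∧ MvPolynomial.eval (fun i => ((coef q i : ℤ) : ℚ)) Φ = 0}.ncard ≤
      {a : Idx m n → ℤ | (∀ i, |a i| ≤ brB m n H N i) ∧ MvPolynomial.eval (fun i => (a i : ℚ)) Φ = 0}.ncard :=
    Set.ncard_le_ncard_of_injOn coef (fun q hq => ⟨brB_box hq.1, hq.2⟩) (coef_inj.injOn) hfin
  -- the estimate
  obtain ⟨X, hX⟩ : ∃ X : ℝ, X = (N : ℝ) ^ ((8 * m * n + 2 * m + 2 * n + 1) * K + 6) := ⟨_, rfl⟩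
  have hX0 : 0 < X := by rw [hX]; positivity
  rw [← hX] at g1 g2
  have hXH : X = (N : ℝ) ^ 6 * (H : ℝ) ^ (8 * m * n + 2 * m + 2 * n + 1) := by
    rw [hX, hH]
    push_cast
    rw [← pow_mul, ← pow_add]
    congr 1
    ring
  have k4 : (({a : Idx m n → ℤ | (∀ i, |a i| ≤ brB m n H N i) ∧ MvPolynomial.eval (fun i => (a i : ℚ)) Φ = 0}.ncard : ℕ) : ℝ) ≤
      A * X / N := by
    rw [le_div_iff₀ hNr]
    have m1 : ((2 * N + 1) ^ 6 * (2 * H + 1) ^ (8 * m * n + 2 * m + 2 * n + 1) : ℕ) ≤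
        (3 * N) ^ 6 * (3 * H) ^ (8 * m * n + 2 * m + 2 * n + 1) :=
      Nat.mul_le_mul (Nat.pow_le_pow_left (by omega) _) (Nat.pow_le_pow_left (by omega) _)
    have m2 := hsz.trans (Nat.mul_le_mul_left D m1)
    have m3 : (({a : Idx m n → ℤ | (∀ i, |a i| ≤ brB m n H N i) ∧ MvPolynomial.eval (fun i => (a i : ℚ)) Φ = 0}.ncard : ℕ) : ℝ) * N ≤
        D * ((3 * N) ^ 6 * (3 * H) ^ (8 * m * n + 2 * m + 2 * n + 1)) := by exact_mod_cast m2
    refine m3.trans (le_of_eq ?_)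
    rw [hA, hXH, mul_pow, mul_pow, show 8 * m * n + 2 * m + 2 * n + 7 = (8 * m * n + 2 * m + 2 * n + 1) + 6 by ring, pow_add (3 : ℝ)]
    ring
  have k5 : (({q : Dt m n | InBox H N q ∧ Smooth q ∧ HasPoint ℝ q ∧ ∀ (p : ℕ) [Fact p.Prime], HasPoint ℚ_[p] q}.ncard : ℕ) : ℝ) ≤
      C' * X / Real.log (Real.log N) + A * X / N := by
    have k6 : (({q : Dt m n | InBox H N q ∧ Smooth q ∧ HasPoint ℝ q ∧ ∀ (p : ℕ) [Fact p.Prime], HasPoint ℚ_[p] q}.ncard : ℕ) : ℝ) ≤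
        ({q : Dt m n | InBox H N q ∧ (Adelic q ∨ Global q)}.ncard : ℝ) +
          ({q : Dt m n | InBox H N q ∧ MvPolynomial.eval (fun i => ((coef q i : ℤ) : ℚ)) Φ = 0}.ncard : ℝ) := by
      exact_mod_cast k2
    have k7 : (({q : Dt m n | InBox H N q ∧ MvPolynomial.eval (fun i => ((coef q i : ℤ) : ℚ)) Φ = 0}.ncard : ℕ) : ℝ) ≤
        ({a : Idx m n → ℤ | (∀ i, |a i| ≤ brB m n H N i) ∧ MvPolynomial.eval (fun i => (a i : ℚ)) Φ = 0}.ncard : ℝ) := by
      exact_mod_cast k3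
    linarith
  have k8 := g2.trans k5
  have k9 : C' * X / Real.log (Real.log N) + A * X / N = (C' / Real.log (Real.log N) + A / N) * X := by ring
  rw [k9] at k8
  exact absurd (le_of_mul_le_mul_right k8 hX0) (not_le.2 hN1)

end HNE
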