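import Pool.Agent.Lib.MP_1ad228_ntH.HDefs
import Pool.Agent.Lib.MP_1ad228_ntBr.Def

/-!
# MP_1ad228_nt: the Brauer classes `(v, β)` on the curves `y² = v(x, z) w(G₁(x, z), G₂(x, z))`
-/

set_option autoImplicit false

namespace HNF

/-- For every `β ∈ ℚ*` the class `(v, β)` belongs to the Brauer group of the curve, and its value at a point `P` is `(val P, β)`.

Precisely: let `O` be a valuation ring which contains `ℚ`, and `P` a point of the curve over the fraction field of `O`.  Then `val P` is not zero and equal to
`u s²`, where `u` is a unit of `O`; and if `P` has coordinates in `O` and a homomorphism `f` from `O` to a field maps `P` to the point `R` then `f(u)` is `val R`,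
up to squares.

(So the quaternion algebra `(val P, β) = (u, β)` is unramified over `O`, and its image under `f` is `(val R, β)`.  For the generic point `P`, over the function
field of the curve, `val P` is the function `v`: hence the class `(v, β)` is unramified, i.e. it belongs to the Brauer group of the curve if this is smooth,
and its value at every point `R` is `(val R, β)`.) -/
def InBr {g : ℕ} (q : Dt g) : Prop :=
  ∀ (O : Type) [CommRing O] [IsDomain O] [ValuationRing O] [Algebra ℚ O] (F : Type) [Field F] (P : Pt F q)
    [Algebra O P.K] [IsFractionRing O P.K],
    ∃ u : Oˣ, ValBr.UnitSq u P.val ∧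
      ∀ (E : Type) [Field E] (R : Pt E q) (f : O →+* R.K), ValBr.Maps f P.x R.x → ValBr.Maps f P.z R.z →
        IsSquare (f u * R.val)

end HNF
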