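import Pool.Agent.Lib.MP_1ad228_ntBr.Val
import Pool.Agent.Lib.MP_1ad228_ntBr.HDef

/-! MP_1ad228_nt: `HNF.InBr` for smooth curves -/

set_option autoImplicit false

namespace HNF

open Polynomial

variable {g : ℕ}

theorem br_vV_map {R S : Type} [CommRing R] [CommRing S] (f : R →+* S) (v : ℤ × ℤ × ℤ) (x z : R) :
    f (vV v x z) = vV v (f x) (f z) := by
  simp [vV]

theorem br_vG_map {R S : Type} [CommRing R] [CommRing S] (f : R →+* S) (G : Fin (g + 1) → ℤ) (x z : R) :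
    f (vG G x z) = vG G (f x) (f z) := by
  simp [vG]

theorem br_vH_map {R S : Type} [CommRing R] [CommRing S] (f : R →+* S) (q : Dt g) (x z : R) :
    f (vH q x z) = vH q (f x) (f z) := by
  simp [vH, br_vV_map, br_vG_map]

theorem br_vV_smul {R : Type} [CommRing R] (v : ℤ × ℤ × ℤ) (c x z : R) :
    vV v (c * x) (c * z) = c ^ 2 * vV v x z := by
  simp only [vV]
  ring

theorem br_vG_smul {R : Type} [CommRing R] (G : Fin (g + 1) → ℤ) (c x z : R) :
    vG G (c * x) (c * z) = c ^ g * vG G x z := by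
  simp only [vG, Finset.mul_sum]
  refine Finset.sum_congr rfl fun i _ => ?_
  have h : c ^ g = c ^ (i : ℕ) * c ^ (g - (i : ℕ)) := by
    rw [← pow_add]
    congr 1
    have := i.2
    omega
  rw [h, mul_pow, mul_pow]
  ring

theorem br_vH_smul {R : Type} [CommRing R] (q : Dt g) (c x z : R) :
    vH q (c * x) (c * z) = c ^ (2 * g) * vH q x z := by
  simp only [vH, br_vG_smul, br_vV_smul]
  rw [← pow_mul, mul_comm g 2]

/-- the two factors do not vanish both -/
theorem br_noZero {q : Dt g} (hq : Smooth q) {K : Type} [Field K] [CharZero K] {x z : K} (h : ¬ (x = 0 ∧ z = 0))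
    (hv : vV q.1.1 x z = 0) : vH q x z ≠ 0 := by
  intro hw
  obtain ⟨h1, h2, h3⟩ := hq
  by_cases hz : z = 0
  · have hx : x ≠ 0 := fun hx => h ⟨hx, hz⟩
    subst hz
    apply h1
    have : (q.1.1.1 : K) * x ^ 2 = 0 := by simpa [vV] using hv
    have h4 := (mul_eq_zero.1 this).resolve_right (pow_ne_zero 2 hx)
    exact_mod_cast h4
  · have hc : IsCoprime (vV q.1.1 X 1 : ℚ[X]) (vH q X 1) := ((squarefree_mul_iff.1 h3).1).isCoprime
    obtain ⟨a, b, hab⟩ := hc
    have e1 : (aeval (x / z) : ℚ[X] →ₐ[ℚ] K) (vV q.1.1 X 1) = 0 := by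
      have e := br_vV_map (aeval (x / z) : ℚ[X] →ₐ[ℚ] K).toRingHom q.1.1 X 1
      have e' : (aeval (x / z) : ℚ[X] →ₐ[ℚ] K) (vV q.1.1 X 1) = vV q.1.1 (x / z) 1 := by simpa using e
      rw [e']
      have e2 := br_vV_smul q.1.1 z (x / z) 1
      rw [mul_div_cancel₀ _ hz, mul_one, hv] at e2
      exact (mul_eq_zero.1 e2.symm).resolve_left (pow_ne_zero 2 hz)
    have e2 : (aeval (x / z) : ℚ[X] →ₐ[ℚ] K) (vH q X 1) = 0 := by
      have e := br_vH_map (aeval (x / z) : ℚ[X] →ₐ[ℚ] K).toRingHom q X 1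
      have e' : (aeval (x / z) : ℚ[X] →ₐ[ℚ] K) (vH q X 1) = vH q (x / z) 1 := by simpa using e
      rw [e']
      have e2 := br_vH_smul q z (x / z) 1
      rw [mul_div_cancel₀ _ hz, mul_one, hw] at e2
      exact (mul_eq_zero.1 e2.symm).resolve_left (pow_ne_zero _ hz)
    have := congrArg (aeval (x / z) : ℚ[X] →ₐ[ℚ] K) hab
    rw [map_add, map_mul, map_mul, e1, e2, mul_zero, mul_zero, add_zero, map_one] at this
    exact zero_ne_one this

theorem br_val_ne {q : Dt g} (hq : Smooth q) {F : Type} [Field F] (P : Pt F q) [CharZero P.K] : P.val ≠ 0 := by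
  unfold Pt.val
  split_ifs with h0
  · exact br_noZero hq P.ne h0
  · exact h0

theorem inBr {q : Dt g} (hq : Smooth q) : InBr q := by
  intro O _ _ _ _ F _ P _ _
  have hP0 : CharZero P.K := ValBr.charZero_of (algebraMap O P.K)
  have hv0 : P.val ≠ 0 := br_val_ne hq P
  obtain ⟨c, x', z', hc, hx', hz', h1⟩ := ValBr.scale O P.ne
  have e1 := br_vV_map (algebraMap O P.K) q.1.1 x' z'
  have e2 := br_vH_map (algebraMap O P.K) q x' z'
  have hyy : ∃ y : O, vV q.1.1 x' z' * vH q x' z' = y ^ 2 := by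
    refine ValBr.sq_of (t := P.y / c ^ (g + 1)) _ ?_
    rw [div_pow, div_eq_iff (pow_ne_zero 2 (pow_ne_zero _ hc)), P.eq, hx', hz', br_vV_smul, br_vH_smul, map_mul, e1, e2]
    ring
  have key : IsUnit (vV q.1.1 x' z' : O) ∨ IsUnit (vH q x' z' : O) := by
    by_contra hcon
    push Not at hcon
    have hz : CharZero (IsLocalRing.ResidueField O) := ValBr.charZero_of (IsLocalRing.residue O)
    have h3 : vV q.1.1 (IsLocalRing.residue O x') (IsLocalRing.residue O z') = 0 := by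
      rw [← br_vV_map]
      exact (IsLocalRing.residue_eq_zero_iff _).2 hcon.1
    have h4 : vH q (IsLocalRing.residue O x') (IsLocalRing.residue O z') = 0 := by
      rw [← br_vH_map]
      exact (IsLocalRing.residue_eq_zero_iff _).2 hcon.2
    exact br_noZero hq (ValBr.scale_res h1) h3 h4
  have hus : ∃ (u : Oˣ) (s : P.K), P.val = algebraMap O P.K u * s ^ 2 := by
    obtain ⟨y, hy⟩ := hyy
    unfold Pt.val
    split_ifs with h0
    · have : ∃ (u : Oˣ) (s : P.K), algebraMap O P.K (vH q x' z') = algebraMap O P.K u * s ^ 2 := by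
        rcases key with k | k
        · exact ValBr.unitSq P.K ⟨y, by rw [mul_comm, hy]⟩ k
        · exact ValBr.unitSq P.K ⟨_, (sq _).symm⟩ k
      obtain ⟨u, s, hs⟩ := this
      refine ⟨u, c ^ g * s, ?_⟩
      rw [hx', hz', br_vH_smul, ← e2, hs]
      ring
    · have : ∃ (u : Oˣ) (s : P.K), algebraMap O P.K (vV q.1.1 x' z') = algebraMap O P.K u * s ^ 2 := by
        rcases key with k | k
        · exact ValBr.unitSq P.K ⟨_, (sq _).symm⟩ k
        · exact ValBr.unitSq P.K ⟨y, hy⟩ k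
      obtain ⟨u, s, hs⟩ := this
      refine ⟨u, c * s, ?_⟩
      rw [hx', hz', br_vV_smul, ← e1, hs]
      ring
  obtain ⟨u, s, hs⟩ := hus
  refine ⟨u, ⟨hv0, s, hs⟩, ?_⟩
  rintro E _ R f ⟨x, hPx, hx⟩ ⟨z, hPz, hz⟩
  have d1 : algebraMap O P.K (vV q.1.1 x z) = vV q.1.1 P.x P.z := by rw [br_vV_map, hPx, hPz]
  have d2 : algebraMap O P.K (vH q x z) = vH q P.x P.z := by rw [br_vH_map, hPx, hPz]
  have f1 : f (vV q.1.1 x z) = vV q.1.1 R.x R.z := by rw [br_vV_map, hx, hz]
  have f2 : f (vH q x z) = vH q R.x R.z := by rw [br_vH_map, hx, hz]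
  have hyy2 : ∃ y : O, vV q.1.1 x z * vH q x z = y ^ 2 := by
    refine ValBr.sq_of (t := P.y) _ ?_
    rw [map_mul, d1, d2, P.eq]
  obtain ⟨y, hy⟩ := hyy2
  -- the value at `P` and at `R`
  have hP : ∃ p : O, (p = vV q.1.1 x z ∨ p = vH q x z) ∧ algebraMap O P.K p = P.val := by
    unfold Pt.val
    split_ifs
    · exact ⟨_, Or.inr rfl, d2⟩
    · exact ⟨_, Or.inl rfl, d1⟩
  have hR : ∃ p : O, (p = vV q.1.1 x z ∨ p = vH q x z) ∧ f p = R.val := by
    unfold Pt.val
    split_ifs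
    · exact ⟨_, Or.inr rfl, f2⟩
    · exact ⟨_, Or.inl rfl, f1⟩
  obtain ⟨p, hp, hp'⟩ := hP
  obtain ⟨r, hr, hr'⟩ := hR
  rw [← hr']
  refine ValBr.value f u (s := s) (v := p) (by rw [hp', hs]) ?_ ?_
  · rintro rfl
    exact hv0 (by rw [← hp', map_zero])
  · rcases hp with rfl | rfl <;> rcases hr with rfl | rfl
    · exact ⟨_, (sq _).symm⟩
    · exact ⟨y, hy⟩
    · exact ⟨y, by rw [mul_comm, hy]⟩
    · exact ⟨_, (sq _).symm⟩

end HNF
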