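import Pool.Agent.Lib.MP_1ad228_ntH.HDefs

/-!
# MP_1ad228_nt: the curves without adelic zero-cycles of degree one are dense
-/

set_option autoImplicit false

namespace HNF

open Polynomial

/-- The smooth curves `y² = v(x, z) w(G₁(x, z), G₂(x, z))` of genus `g` which have points over `ℝ` and over all `ℚ_p`, but no adelic zero-cycle of degree one
orthogonal to the classes `(v, β)`, `β ∈ ℚ*`, and no zero-cycle of degree one over `ℚ`, are Zariski dense among all hyperelliptic curves `y² = f(x, z)` of genus `g`: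
for every nonzero polynomial `Φ` in the `2 g + 3` coefficients of the binary form `f` of degree `2 g + 2` there is such a curve with `Φ(f) ≠ 0`. -/
def IsDense (g : ℕ) : Prop :=
  ∀ Φ : MvPolynomial (Fin (2 * g + 3)) ℚ, Φ ≠ 0 → ∃ q : Dt g,
    (Smooth q ∧ HasPoint ℝ q ∧ ∀ (p : ℕ) [Fact p.Prime], HasPoint ℚ_[p] q) ∧ ¬ Adelic q ∧ ¬ Global q ∧
    MvPolynomial.eval (fun i : Fin (2 * g + 3) => (vV q.1.1 X 1 * vH q X 1 : ℚ[X]).coeff i) Φ ≠ 0

end HNF
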