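import Pool.Agent.Lib.MP_1ad228_ntBr.HDense
import Pool.Agent.Lib.MP_1ad228_ntBr.HDDef
import Pool.Agent.Lib.MP_1ad228_ntH.PH

/-! MP_1ad228_nt: `HNF.IsDense` -/

set_option autoImplicit false

namespace HNF

open Polynomial

/-- the sides of the box -/
def brB (g H N : ℕ) : BrI g → ℕ := Sum.elim (fun _ => N) (fun _ => H)

theorem brB_box {g H N : ℕ} {q : Dt g} (h : InBox H N q) : ∀ i, |brA q i| ≤ brB g H N i := by
  obtain ⟨⟨h1, h2, h3⟩, ⟨h4, h5, h6⟩, h7, h8⟩ := h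
  rintro ((i | i) | (i | i))
  · fin_cases i
    · exact h1
    · exact h2
    · exact h3
  · fin_cases i
    · exact h4
    · exact h5
    · exact h6
  · exact h7 i
  · exact h8 i

theorem brB_prod (g H N : ℕ) : ∏ i, (2 * brB g H N i + 1) = (2 * N + 1) ^ 6 * (2 * H + 1) ^ (2 * g + 2) := by
  rw [Fintype.prod_sum_type]
  congr 1
  · simp only [brB, Sum.elim_inl, Finset.prod_const, Finset.card_univ, Fintype.card_sum, Fintype.card_fin]
  · simp only [brB, Sum.elim_inr, Finset.prod_const, Finset.card_univ, Fintype.card_sum, Fintype.card_fin]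
    congr 1
    omega

theorem br_fin (g H N : ℕ) : {q : Dt g | InBox H N q}.Finite := by
  have hf : {a : BrI g → ℤ | ∀ i, |a i| ≤ brB g H N i}.Finite := by
    refine (Set.finite_Icc (fun i => -(brB g H N i : ℤ)) (fun i => (brB g H N i : ℤ))).subset ?_
    intro a ha
    exact ⟨fun i => (abs_le.1 (ha i)).1, fun i => (abs_le.1 (ha i)).2⟩
  have hm : Set.MapsTo (brA : Dt g → BrI g → ℤ) {q : Dt g | InBox H N q} {a : BrI g → ℤ | ∀ i, |a i| ≤ brB g H N i} :=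
    fun q hq => brB_box hq
  exact Set.Finite.of_injOn hm (brA_inj.injOn) hf

theorem isDense {g : ℕ} (hg : 1 ≤ g) : IsDense g := by
  intro Φ hΦ
  obtain ⟨K, hK⟩ : ∃ K : ℕ, K = g + 9 := ⟨_, rfl⟩
  obtain ⟨C, hC, h1⟩ := part1_H g K hg (by omega)
  obtain ⟨c, hc, N0, h2⟩ := part2_H g K hg (by omega)
  obtain ⟨D, h3⟩ := ValBr.sz_box (brPsi_ne hΦ)
  by_contra hcon
  -- a large number `N`
  obtain ⟨A, hA⟩ : ∃ A : ℝ, A = D * 3 ^ (2 * g + 8) := ⟨_, rfl⟩
  have hA0 : 0 ≤ A := by rw [hA]; positivity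
  have ht : Filter.Tendsto (fun N : ℕ => C / Real.log (Real.log N) + A / N) Filter.atTop (nhds 0) := by
    have t1 : Filter.Tendsto (fun N : ℕ => C / Real.log (Real.log N)) Filter.atTop (nhds 0) :=
      Filter.Tendsto.const_div_atTop
        (Real.tendsto_log_atTop.comp (Real.tendsto_log_atTop.comp tendsto_natCast_atTop_atTop)) C
    have t2 : Filter.Tendsto (fun N : ℕ => A / (N : ℝ)) Filter.atTop (nhds 0) :=
      Filter.Tendsto.const_div_atTop tendsto_natCast_atTop_atTop A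
    simpa using t1.add t2
  have he := (ht.eventually (gt_mem_nhds hc)).and (Filter.eventually_ge_atTop (max 16 N0))
  obtain ⟨N, hN1, hN2⟩ := he.exists
  have hN16 : 16 ≤ N := (le_max_left _ _).trans hN2
  have hNN0 : N0 ≤ N := (le_max_right _ _).trans hN2
  have hN0 : 0 < N := by omega
  have hNr : (0 : ℝ) < N := by exact_mod_cast hN0
  obtain ⟨H, hH⟩ : ∃ H : ℕ, H = N ^ K := ⟨_, rfl⟩
  have hNH : N ≤ H := by
    rw [hH]
    exact Nat.le_self_pow (by omega) N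
  obtain ⟨hfin, hsz⟩ := h3 (brB g H N) N hN0 (by
    rintro (i | i)
    · exact le_rfl
    · exact hNH)
  rw [brB_prod] at hsz
  have g1 := h1 N hN16
  have g2 := h2 N hNN0
  rw [← hH] at g1 g2
  -- the three sets
  have hbox := br_fin g H N
  have e1 : Nat.card {q : Dt g // InBox H N q ∧ (Adelic q ∨ Global q)} =
      {q : Dt g | InBox H N q ∧ (Adelic q ∨ Global q)}.ncard := rfl
  have e2 : Nat.card {q : Dt g // InBox H N q ∧ Smooth q ∧ HasPoint ℝ q ∧ ∀ (p : ℕ) [Fact p.Prime], HasPoint ℚ_[p] q} =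
      {q : Dt g | InBox H N q ∧ Smooth q ∧ HasPoint ℝ q ∧ ∀ (p : ℕ) [Fact p.Prime], HasPoint ℚ_[p] q}.ncard := rfl
  rw [e1] at g1
  rw [e2] at g2
  have hsub : {q : Dt g | InBox H N q ∧ Smooth q ∧ HasPoint ℝ q ∧ ∀ (p : ℕ) [Fact p.Prime], HasPoint ℚ_[p] q} ⊆
      {q : Dt g | InBox H N q ∧ (Adelic q ∨ Global q)} ∪
        {q : Dt g | InBox H N q ∧ MvPolynomial.eval (fun i => ((brA q i : ℤ) : ℚ)) (brPsi Φ) = 0} := by
    rintro q ⟨a1, a2⟩
    by_cases a3 : Adelic q ∨ Global q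
    · exact Or.inl ⟨a1, a3⟩
    · right
      refine ⟨a1, ?_⟩
      by_contra a4
      rw [brPsi_q] at a4
      push Not at a3
      exact hcon ⟨q, a2, a3.1, a3.2, a4⟩
  have f1 : {q : Dt g | InBox H N q ∧ (Adelic q ∨ Global q)}.Finite := hbox.subset fun q hq => hq.1
  have f2 : {q : Dt g | InBox H N q ∧ MvPolynomial.eval (fun i => ((brA q i : ℤ) : ℚ)) (brPsi Φ) = 0}.Finite :=
    hbox.subset fun q hq => hq.1
  have k1 := Set.ncard_le_ncard hsub (f1.union f2)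
  have k2 := k1.trans (Set.ncard_union_le _ _)
  have k3 : {q : Dt g | InBox H N q ∧ MvPolynomial.eval (fun i => ((brA q i : ℤ) : ℚ)) (brPsi Φ) = 0}.ncard ≤
      {a : BrI g → ℤ | (∀ i, |a i| ≤ brB g H N i) ∧ MvPolynomial.eval (fun i => (a i : ℚ)) (brPsi Φ) = 0}.ncard :=
    Set.ncard_le_ncard_of_injOn brA (fun q hq => ⟨brB_box hq.1, hq.2⟩) (brA_inj.injOn) hfin
  -- the estimate
  obtain ⟨X, hX⟩ : ∃ X : ℝ, X = (N : ℝ) ^ (2 * K * (g + 1) + 6) := ⟨_, rfl⟩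
  have hX0 : 0 < X := by rw [hX]; positivity
  rw [← hX] at g1 g2
  have hXH : X = (N : ℝ) ^ 6 * (H : ℝ) ^ (2 * g + 2) := by
    rw [hX, hH]
    push_cast
    rw [← pow_mul, ← pow_add]
    congr 1
    ring
  have k4 : (({a : BrI g → ℤ | (∀ i, |a i| ≤ brB g H N i) ∧ MvPolynomial.eval (fun i => (a i : ℚ)) (brPsi Φ) = 0}.ncard : ℕ) : ℝ) ≤
      A * X / N := by
    rw [le_div_iff₀ hNr]
    have m1 : ((2 * N + 1) ^ 6 * (2 * H + 1) ^ (2 * g + 2) : ℕ) ≤ (3 * N) ^ 6 * (3 * H) ^ (2 * g + 2) :=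
      Nat.mul_le_mul (Nat.pow_le_pow_left (by omega) _) (Nat.pow_le_pow_left (by omega) _)
    have m2 := hsz.trans (Nat.mul_le_mul_left D m1)
    have m3 : (({a : BrI g → ℤ | (∀ i, |a i| ≤ brB g H N i) ∧ MvPolynomial.eval (fun i => (a i : ℚ)) (brPsi Φ) = 0}.ncard : ℕ) : ℝ) * N ≤
        D * ((3 * N) ^ 6 * (3 * H) ^ (2 * g + 2)) := by exact_mod_cast m2
    refine m3.trans (le_of_eq ?_)
    rw [hA, hXH, mul_pow, mul_pow]
    ring
  have k5 : (({q : Dt g | InBox H N q ∧ Smooth q ∧ HasPoint ℝ q ∧ ∀ (p : ℕ) [Fact p.Prime], HasPoint ℚ_[p] q}.ncard : ℕ) : ℝ) ≤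
      C * X / Real.log (Real.log N) + A * X / N := by
    have k6 : (({q : Dt g | InBox H N q ∧ Smooth q ∧ HasPoint ℝ q ∧ ∀ (p : ℕ) [Fact p.Prime], HasPoint ℚ_[p] q}.ncard : ℕ) : ℝ) ≤
        ({q : Dt g | InBox H N q ∧ (Adelic q ∨ Global q)}.ncard : ℝ) +
          ({q : Dt g | InBox H N q ∧ MvPolynomial.eval (fun i => ((brA q i : ℤ) : ℚ)) (brPsi Φ) = 0}.ncard : ℝ) := by
      exact_mod_cast k2
    have k7 : (({q : Dt g | InBox H N q ∧ MvPolynomial.eval (fun i => ((brA q i : ℤ) : ℚ)) (brPsi Φ) = 0}.ncard : ℕ) : ℝ) ≤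
        ({a : BrI g → ℤ | (∀ i, |a i| ≤ brB g H N i) ∧ MvPolynomial.eval (fun i => (a i : ℚ)) (brPsi Φ) = 0}.ncard : ℝ) := by
      exact_mod_cast k3
    linarith
  have k8 := g2.trans k5
  have k9 : C * X / Real.log (Real.log N) + A * X / N = (C / Real.log (Real.log N) + A / N) * X := by ring
  rw [k9] at k8
  exact absurd (le_of_mul_le_mul_right k8 hX0) (not_le.2 hN1)

end HNF
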