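import Pool.Agent.Lib.MP_1ad228_ntBr.Sz
import Pool.Agent.Lib.MP_1ad228_ntBr.HDef

/-! MP_1ad228_nt: the forms `v w(G₁, G₂)` are dense in the space of all binary forms of degree `2 g + 2` -/

set_option autoImplicit false

namespace HNF

open Polynomial

/-- the index type of the coefficients -/
abbrev BrI (g : ℕ) : Type := (Fin 3 ⊕ Fin 3) ⊕ (Fin (g + 1) ⊕ Fin (g + 1))

/-- the form `v w(G₁, G₂)`, dehomogenised, for the coefficients `a` -/
noncomputable def brF {R : Type} [CommRing R] (g : ℕ) (a : BrI g → R) : R[X] :=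
  (C (a (Sum.inl (Sum.inl 0))) * X ^ 2 + C (a (Sum.inl (Sum.inl 1))) * X + C (a (Sum.inl (Sum.inl 2)))) *
    (C (a (Sum.inl (Sum.inr 0))) * (∑ i : Fin (g + 1), C (a (Sum.inr (Sum.inl i))) * X ^ (i : ℕ)) ^ 2 +
      C (a (Sum.inl (Sum.inr 1))) * (∑ i : Fin (g + 1), C (a (Sum.inr (Sum.inl i))) * X ^ (i : ℕ)) *
        (∑ i : Fin (g + 1), C (a (Sum.inr (Sum.inr i))) * X ^ (i : ℕ)) +
      C (a (Sum.inl (Sum.inr 2))) * (∑ i : Fin (g + 1), C (a (Sum.inr (Sum.inr i))) * X ^ (i : ℕ)) ^ 2)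

theorem brF_map {R S : Type} [CommRing R] [CommRing S] (φ : R →+* S) (g : ℕ) (a : BrI g → R) :
    (brF g a).map φ = brF g fun i => φ (a i) := by
  simp only [brF, Polynomial.map_mul, Polynomial.map_add, Polynomial.map_pow, Polynomial.map_sum, Polynomial.map_C,
    Polynomial.map_X]

/-- the coefficients of the data `q` -/
def brA {g : ℕ} (q : Dt g) : BrI g → ℤ :=
  Sum.elim (Sum.elim ![q.1.1.1, q.1.1.2.1, q.1.1.2.2] ![q.1.2.1, q.1.2.2.1, q.1.2.2.2]) (Sum.elim q.2.1 q.2.2)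

theorem brA_inj {g : ℕ} : Function.Injective (brA : Dt g → BrI g → ℤ) := by
  intro q q' h
  have h1 := congrFun h (Sum.inl (Sum.inl 0))
  have h2 := congrFun h (Sum.inl (Sum.inl 1))
  have h3 := congrFun h (Sum.inl (Sum.inl 2))
  have h4 := congrFun h (Sum.inl (Sum.inr 0))
  have h5 := congrFun h (Sum.inl (Sum.inr 1))
  have h6 := congrFun h (Sum.inl (Sum.inr 2))
  simp only [brA, Sum.elim_inl, Sum.elim_inr, Matrix.cons_val_zero, Matrix.cons_val_one, Matrix.cons_val] at h1 h2 h3 h4 h5 h6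
  refine Prod.ext (Prod.ext (Prod.ext h1 (Prod.ext h2 h3)) (Prod.ext h4 (Prod.ext h5 h6))) (Prod.ext ?_ ?_)
  · funext i
    exact congrFun h (Sum.inr (Sum.inl i))
  · funext i
    exact congrFun h (Sum.inr (Sum.inr i))

theorem brF_A {g : ℕ} (q : Dt g) :
    (vV q.1.1 X 1 * vH q X 1 : ℚ[X]) = brF g fun i => ((brA q i : ℤ) : ℚ) := by
  have hG : ∀ G : Fin (g + 1) → ℤ, (vG G X 1 : ℚ[X]) = ∑ i : Fin (g + 1), C ((G i : ℤ) : ℚ) * X ^ (i : ℕ) := by
    intro G
    simp only [vG, one_pow, mul_one]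
    refine Finset.sum_congr rfl fun i _ => ?_
    rw [← Polynomial.C_eq_intCast]
  simp only [brF, brA, Sum.elim_inl, Sum.elim_inr, Matrix.cons_val_zero, Matrix.cons_val_one, Matrix.cons_val, vH, vV, hG]
  simp only [← Polynomial.C_eq_intCast, one_pow, mul_one]

/-- a complex polynomial of degree at most `m + n` is the product of polynomials of degrees at most `m` and `n` -/
theorem br_split (m n : ℕ) : ∀ p : ℂ[X], p.natDegree ≤ m + n → ∃ s t : ℂ[X], p = s * t ∧ s.natDegree ≤ m ∧ t.natDegree ≤ n := by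
  induction m with
  | zero => intro p hp; exact ⟨1, p, by simp, by simp, by simpa using hp⟩
  | succ m ih =>
    intro p hp
    -- take one root out of `p`
    by_cases h0 : p.natDegree ≤ m + n
    · obtain ⟨s, t, h1, h2, h3⟩ := ih p h0
      exact ⟨s, t, h1, by omega, h3⟩
    · have hd : p.degree ≠ 0 := by
        intro h
        have := natDegree_eq_zero_iff_degree_le_zero.2 h.le
        omega
      obtain ⟨r, hr⟩ := IsAlgClosed.exists_root p hd
      obtain ⟨p', hp'⟩ := dvd_iff_isRoot.2 hr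
      have hp0 : p ≠ 0 := by
        rintro rfl
        simp at h0
      have hp'0 : p' ≠ 0 := by
        rintro rfl
        rw [mul_zero] at hp'
        exact hp0 hp'
      have hdeg : p.natDegree = 1 + p'.natDegree := by
        rw [hp', natDegree_mul (X_sub_C_ne_zero r) hp'0, natDegree_X_sub_C]
      obtain ⟨s, t, h1, h2, h3⟩ := ih p' (by omega)
      refine ⟨(X - C r) * s, t, by rw [hp', h1, mul_assoc], ?_, h3⟩
      refine natDegree_mul_le.trans ?_
      rw [natDegree_X_sub_C]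
      omega

theorem br_sum {g : ℕ} {p : ℂ[X]} (hp : p.natDegree ≤ g) : ∑ i : Fin (g + 1), C (p.coeff i) * X ^ (i : ℕ) = p := by
  rw [Fin.sum_univ_eq_sum_range (fun i => C (p.coeff i) * X ^ i) (g + 1)]
  exact (as_sum_range_C_mul_X_pow' p (Nat.lt_succ_of_le hp)).symm

/-- all complex forms of degree `2 g + 2` are of the form `v w(G₁, G₂)` -/
theorem br_surj (g : ℕ) (c : Fin (2 * g + 3) → ℂ) : ∃ a : BrI g → ℂ, ∀ i : Fin (2 * g + 3), (brF g a).coeff i = c i := by
  obtain ⟨p, hp⟩ : ∃ p : ℂ[X], p = ∑ i : Fin (2 * g + 3), C (c i) * X ^ (i : ℕ) := ⟨_, rfl⟩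
  have hpd : p.natDegree ≤ 2 + 2 * g := by
    rw [hp]
    refine natDegree_sum_le_of_forall_le _ _ fun i _ => ?_
    refine (natDegree_C_mul_X_pow_le _ _).trans ?_
    have := i.2
    omega
  have hpc : ∀ i : Fin (2 * g + 3), p.coeff i = c i := by
    intro i
    rw [hp, finsetSum_coeff]
    simp only [coeff_C_mul, coeff_X_pow]
    rw [Finset.sum_eq_single i]
    · simp
    · intro j _ hj
      have : (i : ℕ) ≠ (j : ℕ) := fun h => hj (Fin.ext h.symm)
      simp [this]
    · intro h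
      exact absurd (Finset.mem_univ _) h
  obtain ⟨v, h, e1, hv, hh⟩ := br_split 2 (2 * g) p hpd
  obtain ⟨A, B, e2, hA, hB⟩ := br_split g g h (by omega)
  refine ⟨Sum.elim (Sum.elim ![v.coeff 2, v.coeff 1, v.coeff 0] ![0, 1, 0]) (Sum.elim (fun i => A.coeff i) fun i => B.coeff i),
    fun i => ?_⟩
  rw [← hpc i]
  congr 1
  simp only [brF, Sum.elim_inl, Sum.elim_inr, Matrix.cons_val_zero, Matrix.cons_val_one, Matrix.cons_val]
  rw [br_sum hA, br_sum hB, e1, e2]
  have hv2 : C (v.coeff 2) * X ^ 2 + C (v.coeff 1) * X + C (v.coeff 0) = v := by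
    conv_rhs => rw [as_sum_range_C_mul_X_pow' v (Nat.lt_succ_of_le hv)]
    simp only [Finset.sum_range_succ, Finset.sum_range_zero]
    ring
  rw [hv2]
  simp

/-- the polynomial on the parameters given by a polynomial `Φ` in the coefficients of the form -/
noncomputable def brPsi {g : ℕ} (Φ : MvPolynomial (Fin (2 * g + 3)) ℚ) : MvPolynomial (BrI g) ℚ :=
  MvPolynomial.aeval (fun i : Fin (2 * g + 3) => (brF g (MvPolynomial.X : BrI g → MvPolynomial (BrI g) ℚ)).coeff i) Φ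

theorem brPsi_aeval {g : ℕ} (Φ : MvPolynomial (Fin (2 * g + 3)) ℚ) {S : Type} [CommRing S] [Algebra ℚ S] (a : BrI g → S) :
    MvPolynomial.aeval a (brPsi Φ) = MvPolynomial.aeval (fun i : Fin (2 * g + 3) => (brF g a).coeff i) Φ := by
  unfold brPsi
  rw [← AlgHom.comp_apply]
  congr 1
  apply MvPolynomial.algHom_ext
  intro i
  rw [AlgHom.comp_apply, MvPolynomial.aeval_X, MvPolynomial.aeval_X]
  have h := brF_map (MvPolynomial.aeval a : MvPolynomial (BrI g) ℚ →ₐ[ℚ] S).toRingHom g MvPolynomial.X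
  have h2 := congrArg (fun p : S[X] => p.coeff i) h
  simp only [coeff_map] at h2
  simpa using h2

theorem brPsi_ne {g : ℕ} {Φ : MvPolynomial (Fin (2 * g + 3)) ℚ} (hΦ : Φ ≠ 0) : brPsi Φ ≠ 0 := by
  intro h0
  apply hΦ
  apply MvPolynomial.map_injective (algebraMap ℚ ℂ) (algebraMap ℚ ℂ).injective
  rw [map_zero]
  apply MvPolynomial.funext
  intro c
  rw [map_zero]
  obtain ⟨a, ha⟩ := br_surj g c
  have h := brPsi_aeval Φ a
  rw [h0, map_zero] at h
  rw [MvPolynomial.eval_map]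
  have hc : (fun i : Fin (2 * g + 3) => (brF g a).coeff i) = c := funext ha
  rw [hc] at h
  exact h.symm

/-- the value of `Φ` at the form of `q` -/
theorem brPsi_q {g : ℕ} (Φ : MvPolynomial (Fin (2 * g + 3)) ℚ) (q : Dt g) :
    MvPolynomial.eval (fun i => ((brA q i : ℤ) : ℚ)) (brPsi Φ) =
      MvPolynomial.eval (fun i : Fin (2 * g + 3) => (vV q.1.1 X 1 * vH q X 1 : ℚ[X]).coeff i) Φ := by
  have h := brPsi_aeval Φ (S := ℚ) (fun i => ((brA q i : ℤ) : ℚ))
  rw [← brF_A] at h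
  exact h

end HNF
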