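import Mathlib

/-! MP_1ad228_nt: the zeros of a polynomial in a box (Schwartz-Zippel) -/

set_option autoImplicit false

namespace ValBr

open MvPolynomial Finset

/-- A nonzero polynomial has at most `D / N` times the number of all points as zeros in a box of integral points all of whose sides are at least `N`. -/
theorem sz_box {ι : Type} [Fintype ι] {Ψ : MvPolynomial ι ℚ} (hΨ : Ψ ≠ 0) :
    ∃ D : ℕ, ∀ (b : ι → ℕ) (N : ℕ), 0 < N → (∀ i, N ≤ b i) →
      ({a : ι → ℤ | (∀ i, |a i| ≤ b i) ∧ eval (fun i => (a i : ℚ)) Ψ = 0}.Finite) ∧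
      ({a : ι → ℤ | (∀ i, |a i| ≤ b i) ∧ eval (fun i => (a i : ℚ)) Ψ = 0}.ncard) * N ≤
        D * ∏ i, (2 * b i + 1) := by
  classical
  obtain ⟨n, ⟨e⟩⟩ : ∃ n, Nonempty (ι ≃ Fin n) := ⟨_, ⟨Fintype.equivFin ι⟩⟩
  have hp : rename e Ψ ≠ 0 := by
    intro h
    exact hΨ (rename_injective e e.injective (by rw [h, map_zero]))
  refine ⟨∑ j, (rename e Ψ).degreeOf j, fun b N hN hb => ?_⟩
  obtain ⟨S, hS⟩ : ∃ S : Fin n → Finset ℚ, S = fun j =>
      (Finset.Icc (-(b (e.symm j) : ℤ)) (b (e.symm j))).image (fun z : ℤ => (z : ℚ)) := ⟨_, rfl⟩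
  have hSc : ∀ j, (S j).card = 2 * b (e.symm j) + 1 := by
    intro j
    rw [hS]
    rw [Finset.card_image_of_injective _ Int.cast_injective, Int.card_Icc]
    omega
  have sz := schwartz_zippel_sum_degreeOf hp S
  have hmaps : ∀ a ∈ {a : ι → ℤ | (∀ i, |a i| ≤ b i) ∧ eval (fun i => (a i : ℚ)) Ψ = 0},
      (fun j => ((a (e.symm j) : ℤ) : ℚ)) ∈
        ((Fintype.piFinset S).filter fun x => eval x (rename e Ψ) = 0) := by
    rintro a ⟨h1, h2⟩
    rw [mem_filter, Fintype.mem_piFinset]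
    refine ⟨fun j => ?_, ?_⟩
    · rw [hS]
      refine Finset.mem_image_of_mem _ ?_
      rw [Finset.mem_Icc]
      exact abs_le.1 (h1 _)
    · rw [eval_rename]
      have : ((fun j => ((a (e.symm j) : ℤ) : ℚ)) ∘ e) = fun i => (a i : ℚ) := by
        funext i
        simp
      rw [this, h2]
  have hinj : Set.InjOn (fun (a : ι → ℤ) (j : Fin n) => ((a (e.symm j) : ℤ) : ℚ))
      {a : ι → ℤ | (∀ i, |a i| ≤ b i) ∧ eval (fun i => (a i : ℚ)) Ψ = 0} := by
    intro a _ a' _ h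
    funext i
    have := congrFun h (e i)
    simpa using this
  have hfin : {a : ι → ℤ | (∀ i, |a i| ≤ b i) ∧ eval (fun i => (a i : ℚ)) Ψ = 0}.Finite :=
    Set.Finite.of_injOn (f := fun (a : ι → ℤ) (j : Fin n) => ((a (e.symm j) : ℤ) : ℚ))
      (fun a ha => Finset.mem_coe.2 (hmaps a ha)) hinj (Finset.finite_toSet _)
  refine ⟨hfin, ?_⟩
  have hcard : {a : ι → ℤ | (∀ i, |a i| ≤ b i) ∧ eval (fun i => (a i : ℚ)) Ψ = 0}.ncard ≤
      ((Fintype.piFinset S).filter fun x => eval x (rename e Ψ) = 0).card := by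
    rw [← Set.ncard_coe_finset]
    exact Set.ncard_le_ncard_of_injOn (fun (a : ι → ℤ) (j : Fin n) => ((a (e.symm j) : ℤ) : ℚ))
      (fun a ha => Finset.mem_coe.2 (hmaps a ha)) hinj (Finset.finite_toSet _)
  have hN0 : (0 : ℚ≥0) < N := by exact_mod_cast hN
  have h1 : ∑ j, (((rename e Ψ).degreeOf j : ℚ≥0) / ((S j).card : ℚ≥0)) ≤
      ((∑ j, (rename e Ψ).degreeOf j : ℕ) : ℚ≥0) / N := by
    rw [Nat.cast_sum, Finset.sum_div]
    refine Finset.sum_le_sum fun j _ => ?_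
    have h2 : (N : ℚ≥0) ≤ ((S j).card : ℚ≥0) := by
      rw [hSc]
      have := hb (e.symm j)
      exact_mod_cast (by omega : N ≤ 2 * b (e.symm j) + 1)
    gcongr
  have hP : (0 : ℚ≥0) < ∏ i, ((S i).card : ℚ≥0) := by
    refine Finset.prod_pos fun j _ => ?_
    rw [hSc]
    positivity
  have h3 := sz.trans h1
  rw [div_le_div_iff₀ hP hN0] at h3
  have h4 : ((Fintype.piFinset S).filter fun x => eval x (rename e Ψ) = 0).card * N ≤
      (∑ j, (rename e Ψ).degreeOf j) * ∏ i, (S i).card := by exact_mod_cast h3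
  have h5 : ∏ i, (S i).card = ∏ i, (2 * b i + 1) := by
    rw [Finset.prod_congr rfl fun j _ => hSc j]
    exact Equiv.prod_comp e.symm fun i => 2 * b i + 1
  rw [h5] at h4
  exact (Nat.mul_le_mul_right _ hcard).trans h4

end ValBr
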