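import Pool.Agent.Lib.MP_1ad228_nt.GTDefs
import Pool.Agent.Lib.MP_1ad228_ntBr.Def

/-!
# MP_1ad228_nt: the Brauer classes `(q_i, β)` on the curves `D w² = q_1(x, z) ... q_k(x, z)`
-/

set_option autoImplicit false

namespace ZS

open ZG

/-- For all `i` and `β ∈ ℚ*` the class `(q_i, β)` belongs to the Brauer group of the curve `D w² = ∏ q_j(x, z)`, and its value at a point `P` is
`(val P i, β)`.

Precisely: let `O` be a valuation ring which contains `ℚ`, and `P` a point of the curve over the fraction field of `O`.  Then `val P i` is not zero and equal
to `u s²`, where `u` is a unit of `O`; and if `P` has coordinates in `O` and a homomorphism `f` from `O` to a field maps `P` to the point `R` then `f(u)` is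
`val R i`, up to squares.

(So the quaternion algebra `(val P i, β) = (u, β)` is unramified over `O`, and its image under `f` is `(val R i, β)`.  For the generic point `P`, over the
function field of the curve, `val P i` is the function `q_i`: hence the class `(q_i, β)` is unramified, i.e. it belongs to the Brauer group of the curve if this
is smooth, and its value at every point `R` is `(val R i, β)`.) -/
def InBr {k : ℕ} (q : Fin k → BQ) (D : ℤ) : Prop :=
  ∀ (i : Fin k) (O : Type) [CommRing O] [IsDomain O] [ValuationRing O] [Algebra ℚ O] (F : Type) [Field F] (P : Pt F q D)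
    [Algebra O P.K] [IsFractionRing O P.K],
    ∃ u : Oˣ, ValBr.UnitSq u (P.val i) ∧
      ∀ (E : Type) [Field E] (R : Pt E q D) (f : O →+* R.K), ValBr.Maps f P.x R.x → ValBr.Maps f P.z R.z →
        IsSquare (f u * R.val i)

end ZS
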