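import Pool.Agent.Lib.MP_1ad228_ntBr.Val
import Pool.Agent.Lib.MP_1ad228_ntBr.TSDef

/-! MP_1ad228_nt: `ZS.InBr` for the twists of a smooth curve -/

set_option autoImplicit false

namespace ZS

open ZG Finset

theorem br_val {F : Type} [Field F] {k : ℕ} {q : Fin k → BQ} {D : ℤ} (P : Pt F q D) (i : Fin k) :
    ((q i).ev P.x P.z = 0 ∧ P.val i = (D : P.K) * ∏ j ∈ univ.erase i, (q j).ev P.x P.z) ∨
      P.val i = (q i).ev P.x P.z := by
  unfold Pt.val
  split_ifs with h0
  · left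
    have h6 : (@erase (Fin k) (fun a b => Classical.propDecidable (a = b)) univ i) = univ.erase i := by
      ext j
      simp
    rw [h6]
    exact ⟨h0, rfl⟩
  · exact Or.inr rfl

theorem inBr {k : ℕ} {q : Fin k → BQ} (hR : ∀ i j, i ≠ j → (q i).res (q j) ≠ 0) {D : ℤ} (hD : D ≠ 0) : InBr q D := by
  intro i O _ _ _ _ F _ P _ _
  have hP0 : CharZero P.K := ValBr.charZero_of (algebraMap O P.K)
  have hF0 : CharZero F := by
    refine ⟨fun a b hab => ?_⟩
    have h1 := congrArg (algebraMap F P.K) hab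
    rw [map_natCast, map_natCast] at h1
    exact_mod_cast h1
  have hv0 : P.val i ≠ 0 := P.val_ne hR hD i
  obtain ⟨c, x', z', hc, hx', hz', h1⟩ := ValBr.scale O P.ne
  have e1 : ∀ j, algebraMap O P.K ((q j).ev x' z') = (q j).ev (algebraMap O P.K x') (algebraMap O P.K z') :=
    fun j => BQ.ev_map (algebraMap O P.K) (q j) x' z'
  have e2 : algebraMap O P.K ((D : O) * ∏ j ∈ univ.erase i, (q j).ev x' z') =
      (D : P.K) * ∏ j ∈ univ.erase i, (q j).ev (algebraMap O P.K x') (algebraMap O P.K z') := by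
    rw [map_mul, map_intCast, map_prod]
    simp only [e1]
  have hyy : ∃ y : O, (q i).ev x' z' * ((D : O) * ∏ j ∈ univ.erase i, (q j).ev x' z') = y ^ 2 := by
    refine ValBr.sq_of (t := (D : P.K) * P.w / c ^ k) _ ?_
    have hc2 : c ^ k ≠ 0 := pow_ne_zero _ hc
    rw [div_pow, div_eq_iff (pow_ne_zero 2 hc2), map_mul, e1, e2]
    have e3 : (D : P.K) * P.w ^ 2 = c ^ (2 * k) * ∏ j, (q j).ev (algebraMap O P.K x') (algebraMap O P.K z') := by
      rw [P.eq, hx', hz']
      simp only [BQ.ev_smul]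
      rw [Finset.prod_mul_distrib, Finset.prod_const, Finset.card_univ, Fintype.card_fin, ← pow_mul]
    rw [← Finset.mul_prod_erase univ (fun j => (q j).ev (algebraMap O P.K x') (algebraMap O P.K z')) (Finset.mem_univ i)] at e3
    linear_combination (D : P.K) * e3
  have key : IsUnit ((q i).ev x' z' : O) ∨ IsUnit ((D : O) * ∏ j ∈ univ.erase i, (q j).ev x' z' : O) := by
    by_contra hcon
    push Not at hcon
    have hz : CharZero (IsLocalRing.ResidueField O) := ValBr.charZero_of (IsLocalRing.residue O)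
    have h3 : (q i).ev (IsLocalRing.residue O x') (IsLocalRing.residue O z') = 0 := by
      rw [← BQ.ev_map]
      exact (IsLocalRing.residue_eq_zero_iff _).2 hcon.1
    have h4 : (D : IsLocalRing.ResidueField O) * ∏ j ∈ univ.erase i, (q j).ev (IsLocalRing.residue O x') (IsLocalRing.residue O z') = 0 := by
      have h5 := (IsLocalRing.residue_eq_zero_iff _).2 hcon.2
      rw [map_mul, map_prod, map_intCast] at h5
      simpa only [BQ.ev_map] using h5
    have h5 := (mul_eq_zero.1 h4).resolve_left (Int.cast_ne_zero.2 hD)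
    obtain ⟨j, hj, h5⟩ := Finset.prod_eq_zero_iff.1 h5
    exact BQ.res_zero (q i) (q j) _ _ (ValBr.scale_res h1) (by exact_mod_cast hR i j (Finset.mem_erase.1 hj).1.symm) h3 h5
  have hus : ∃ (u : Oˣ) (s : P.K), P.val i = algebraMap O P.K u * s ^ 2 := by
    obtain ⟨y, hy⟩ := hyy
    rcases br_val P i with ⟨_, h0⟩ | h0
    · have : ∃ (u : Oˣ) (s : P.K), algebraMap O P.K ((D : O) * ∏ j ∈ univ.erase i, (q j).ev x' z') = algebraMap O P.K u * s ^ 2 := by
        rcases key with k | k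
        · exact ValBr.unitSq P.K ⟨y, by rw [mul_comm, hy]⟩ k
        · exact ValBr.unitSq P.K ⟨_, (sq _).symm⟩ k
      obtain ⟨u, s, hs⟩ := this
      refine ⟨u, c ^ (univ.erase i).card * s, ?_⟩
      rw [h0, hx', hz']
      simp only [BQ.ev_smul]
      rw [Finset.prod_mul_distrib, Finset.prod_const]
      rw [e2] at hs
      rw [mul_left_comm, hs]
      ring
    · have : ∃ (u : Oˣ) (s : P.K), algebraMap O P.K ((q i).ev x' z') = algebraMap O P.K u * s ^ 2 := by
        rcases key with k | k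
        · exact ValBr.unitSq P.K ⟨_, (sq _).symm⟩ k
        · exact ValBr.unitSq P.K ⟨y, hy⟩ k
      obtain ⟨u, s, hs⟩ := this
      refine ⟨u, c * s, ?_⟩
      rw [h0, hx', hz', BQ.ev_smul, ← e1, hs]
      ring
  obtain ⟨u, s, hs⟩ := hus
  refine ⟨u, ⟨hv0, s, hs⟩, ?_⟩
  rintro E _ R f ⟨x, hPx, hx⟩ ⟨z, hPz, hz⟩
  have d1 : ∀ j, algebraMap O P.K ((q j).ev x z) = (q j).ev P.x P.z := by
    intro j
    rw [BQ.ev_map, hPx, hPz]
  have d2 : algebraMap O P.K ((D : O) * ∏ j ∈ univ.erase i, (q j).ev x z) =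
      (D : P.K) * ∏ j ∈ univ.erase i, (q j).ev P.x P.z := by
    rw [map_mul, map_intCast, map_prod]
    simp only [d1]
  have f1 : ∀ j, f ((q j).ev x z) = (q j).ev R.x R.z := fun j => by rw [BQ.ev_map, hx, hz]
  have f2 : f ((D : O) * ∏ j ∈ univ.erase i, (q j).ev x z) = (D : R.K) * ∏ j ∈ univ.erase i, (q j).ev R.x R.z := by
    rw [map_mul, map_prod, map_intCast]
    simp only [f1]
  have hyy2 : ∃ y : O, (q i).ev x z * ((D : O) * ∏ j ∈ univ.erase i, (q j).ev x z) = y ^ 2 := by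
    refine ValBr.sq_of (t := (D : P.K) * P.w) _ ?_
    have e5 := P.eq
    rw [← Finset.mul_prod_erase univ (fun j => (q j).ev P.x P.z) (Finset.mem_univ i)] at e5
    rw [map_mul, d1, d2]
    linear_combination (D : P.K) * e5
  obtain ⟨y, hy⟩ := hyy2
  have hP : ∃ p : O, (p = (q i).ev x z ∨ p = (D : O) * ∏ j ∈ univ.erase i, (q j).ev x z) ∧ algebraMap O P.K p = P.val i := by
    rcases br_val P i with ⟨_, h0⟩ | h0
    · exact ⟨_, Or.inr rfl, by rw [h0, d2]⟩
    · exact ⟨_, Or.inl rfl, by rw [h0, d1]⟩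
  have hR' : ∃ p : O, (p = (q i).ev x z ∨ p = (D : O) * ∏ j ∈ univ.erase i, (q j).ev x z) ∧ f p = R.val i := by
    rcases br_val R i with ⟨_, h0⟩ | h0
    · exact ⟨_, Or.inr rfl, by rw [h0, f2]⟩
    · exact ⟨_, Or.inl rfl, by rw [h0, f1]⟩
  obtain ⟨p, hp, hp'⟩ := hP
  obtain ⟨r, hr, hr'⟩ := hR'
  rw [← hr']
  refine ValBr.value f u (s := s) (v := p) (by rw [hp', hs]) ?_ ?_
  · rintro rfl
    exact hv0 (by rw [← hp', map_zero])
  · rcases hp with rfl | rfl <;> rcases hr with rfl | rfl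
    · exact ⟨_, (sq _).symm⟩
    · exact ⟨y, hy⟩
    · exact ⟨y, by rw [mul_comm, hy]⟩
    · exact ⟨_, (sq _).symm⟩

end ZS
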