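import Mathlib

/-! MP_1ad228_nt: every generic complex sextic is a product of three quadratic forms of which two have a square resultant over the field of definition of the parameters -/

set_option autoImplicit false

namespace ZS

open Polynomial

/-- the product `q_0 q_1 q_2` (dehomogenised) for the nine parameters `a` -/
noncomputable def pF {R : Type} [CommRing R] (a : Fin 9 → R) : R[X] :=
  C (a 0) * ((X + C (a 1)) ^ 2 - C (2 * a 2 ^ 2)) *
    (C (a 3) * ((X + C (a 7)) ^ 2 - C (3 * a 4 ^ 2) * (X + C (a 8)) ^ 2)) *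
    (C (a 5) * ((X + C (a 7)) ^ 2 - C (5 * a 6 ^ 2) * (X + C (a 8)) ^ 2))

theorem pF_map {R S : Type} [CommRing R] [CommRing S] (φ : R →+* S) (a : Fin 9 → R) :
    (pF a).map φ = pF fun i => φ (a i) := by
  simp only [pF, Polynomial.map_mul, Polynomial.map_add, Polynomial.map_sub, Polynomial.map_pow, Polynomial.map_C,
    Polynomial.map_X, map_mul, map_pow, map_ofNat, Polynomial.map_ofNat]

/-- a complex polynomial of degree `n` is a product of linear factors -/
theorem roots_fin (n : ℕ) : ∀ p : ℂ[X], p.natDegree = n → ∃ r : Fin n → ℂ, p = C p.leadingCoeff * ∏ i, (X - C (r i)) := by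
  induction n with
  | zero =>
    intro p hp
    refine ⟨Fin.elim0, ?_⟩
    rw [Finset.univ_eq_empty, Finset.prod_empty, mul_one, Polynomial.leadingCoeff, hp]
    exact eq_C_of_natDegree_eq_zero hp
  | succ n ih =>
    intro p hp
    have hd : p.degree ≠ 0 := by
      intro h
      have := natDegree_eq_zero_iff_degree_le_zero.2 h.le
      omega
    obtain ⟨r, hr⟩ := IsAlgClosed.exists_root p hd
    obtain ⟨p', hp'⟩ := dvd_iff_isRoot.2 hr
    have hp0 : p ≠ 0 := by
      rintro rfl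
      simp at hp
    have hp'0 : p' ≠ 0 := by
      rintro rfl
      rw [mul_zero] at hp'
      exact hp0 hp'
    have hdeg : p.natDegree = 1 + p'.natDegree := by
      rw [hp', natDegree_mul (X_sub_C_ne_zero r) hp'0, natDegree_X_sub_C]
    have hlc : p.leadingCoeff = p'.leadingCoeff := by
      rw [hp', leadingCoeff_mul, leadingCoeff_X_sub_C, one_mul]
    obtain ⟨r', hr'⟩ := ih p' (by omega)
    refine ⟨Fin.cons r r', ?_⟩
    rw [Fin.prod_univ_succ, hlc]
    simp only [Fin.cons_zero, Fin.cons_succ]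
    rw [hp', mul_left_comm, ← hr']

/-- two quadratic polynomials without common root are combinations of the same two squares -/
theorem two_squares (r3 r4 r5 r6 : ℂ) (h34 : r3 ≠ r4) (h56 : r5 ≠ r6) (h35 : r3 ≠ r5) (h36 : r3 ≠ r6) (h45 : r4 ≠ r5)
    (h46 : r4 ≠ r6) (hs : r3 + r4 - r5 - r6 ≠ 0) : ∃ s t l1 g1 l2 g2 : ℂ,
    (X - C r3) * (X - C r4) = C l1 * ((X + C s) ^ 2 - C (3 * g1 ^ 2) * (X + C t) ^ 2) ∧
    (X - C r5) * (X - C r6) = C l2 * ((X + C s) ^ 2 - C (5 * g2 ^ 2) * (X + C t) ^ 2) := by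
  obtain ⟨R, hR⟩ : ∃ R : ℂ, R = (r3 - r5) * (r3 - r6) * (r4 - r5) * (r4 - r6) := ⟨_, rfl⟩
  have hR0 : R ≠ 0 := by
    rw [hR]
    exact mul_ne_zero (mul_ne_zero (mul_ne_zero (sub_ne_zero.2 h35) (sub_ne_zero.2 h36)) (sub_ne_zero.2 h45)) (sub_ne_zero.2 h46)
  obtain ⟨δ, hδ⟩ := IsAlgClosed.exists_pow_nat_eq R (n := 2) two_pos
  have hδ0 : δ ≠ 0 := by
    rintro rfl
    rw [zero_pow two_ne_zero] at hδ
    exact hR0 hδ.symm
  obtain ⟨Δ, hΔ⟩ : ∃ Δ : ℂ, Δ = r5 + r6 - r3 - r4 := ⟨_, rfl⟩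
  have hΔ0 : Δ ≠ 0 := by
    rw [hΔ]
    intro h
    apply hs
    linear_combination -h
  obtain ⟨e, he⟩ : ∃ e : ℂ, e = (-(r3 * r4 - r5 * r6) + δ) / Δ := ⟨_, rfl⟩
  obtain ⟨f, hf⟩ : ∃ f : ℂ, f = (-(r3 * r4 - r5 * r6) - δ) / Δ := ⟨_, rfl⟩
  have he' : Δ * e = -(r3 * r4 - r5 * r6) + δ := by rw [he]; field_simp
  have hf' : Δ * f = -(r3 * r4 - r5 * r6) - δ := by rw [hf]; field_simp
  have hef : Δ * (e - f) = 2 * δ := by linear_combination he' - hf'
  have hef0 : e - f ≠ 0 := by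
    intro h
    rw [h, mul_zero] at hef
    exact hδ0 (by linear_combination (-(1 : ℂ) / 2) * hef)
  have hsum : Δ * (e + f) = -2 * (r3 * r4 - r5 * r6) := by linear_combination he' + hf'
  have hprod : Δ * (e * f) = (r3 + r4) * (r5 * r6) - (r5 + r6) * (r3 * r4) := by
    apply mul_left_cancel₀ hΔ0
    have h1 : Δ * (Δ * (e * f)) = (Δ * e) * (Δ * f) := by ring
    rw [h1, he', hf', hΔ]
    have h2 : δ ^ 2 = (r3 - r5) * (r3 - r6) * (r4 - r5) * (r4 - r6) := by rw [hδ, hR]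
    linear_combination (-1 : ℂ) * h2
  -- a quadratic polynomial in the pencil
  have main : ∀ S P κ : ℂ, κ ≠ 0 → S ^ 2 ≠ 4 * P → S * (e + f) - 2 * (e * f) = 2 * P → ∃ l g : ℂ,
      X ^ 2 - C S * X + C P = C l * ((X + C (-e)) ^ 2 - C (κ * g ^ 2) * (X + C (-f)) ^ 2) := by
    intro S P κ hκ hSP hrel
    obtain ⟨l, hl⟩ : ∃ l : ℂ, l = (S / 2 - f) / (e - f) := ⟨_, rfl⟩
    obtain ⟨m, hm⟩ : ∃ m : ℂ, m = (e - S / 2) / (e - f) := ⟨_, rfl⟩
    have hl' : l * (e - f) = S / 2 - f := by rw [hl]; field_simp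
    have hm' : m * (e - f) = e - S / 2 := by rw [hm]; field_simp
    have c1 : l + m = 1 := by
      apply mul_right_cancel₀ hef0
      linear_combination hl' + hm'
    have c2 : 2 * (l * e + m * f) = S := by
      apply mul_right_cancel₀ hef0
      linear_combination (2 * e) * hl' + (2 * f) * hm'
    have c3 : l * e ^ 2 + m * f ^ 2 = P := by
      apply mul_right_cancel₀ hef0
      linear_combination (e ^ 2) * hl' + (f ^ 2) * hm' + ((e - f) / 2) * hrel
    have hl0 : l ≠ 0 := by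
      intro h
      rw [h] at c1 c2 c3
      apply hSP
      have hm1 : m = 1 := by linear_combination c1
      rw [hm1] at c2 c3
      rw [← c2, ← c3]
      ring
    obtain ⟨g, hg⟩ := IsAlgClosed.exists_pow_nat_eq (-m / (κ * l)) (n := 2) two_pos
    refine ⟨l, g, ?_⟩
    have hgm : l * (κ * g ^ 2) = -m := by
      rw [hg]
      field_simp
    have e2 : C l * ((X + C (-e)) ^ 2 - C (κ * g ^ 2) * (X + C (-f)) ^ 2) =
        C l * (X + C (-e)) ^ 2 - C (l * (κ * g ^ 2)) * (X + C (-f)) ^ 2 := by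
      simp only [C_mul]
      ring
    rw [e2, hgm, ← c2, ← c3]
    have c1' : (C l + C m : ℂ[X]) = 1 := by rw [← C_add, c1, C_1]
    simp only [C_neg, C_mul, C_add, C_pow, map_ofNat]
    linear_combination (-(X ^ 2 : ℂ[X])) * c1'
  have q34 : (X - C r3) * (X - C r4) = (X ^ 2 - C (r3 + r4) * X + C (r3 * r4) : ℂ[X]) := by
    simp only [C_mul, C_add]
    ring
  have q56 : (X - C r5) * (X - C r6) = (X ^ 2 - C (r5 + r6) * X + C (r5 * r6) : ℂ[X]) := by
    simp only [C_mul, C_add]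
    ring
  obtain ⟨l1, g1, h1⟩ := main (r3 + r4) (r3 * r4) 3 three_ne_zero
    (by
      intro h
      apply h34
      have : (r3 - r4) ^ 2 = 0 := by linear_combination h
      exact sub_eq_zero.1 (pow_eq_zero_iff two_ne_zero |>.1 this))
    (by
      apply mul_left_cancel₀ hΔ0
      rw [hΔ] at hsum hprod ⊢
      linear_combination (r3 + r4) * hsum - 2 * hprod)
  obtain ⟨l2, g2, h2⟩ := main (r5 + r6) (r5 * r6) 5 (by norm_num)
    (by
      intro h
      apply h56
      have : (r5 - r6) ^ 2 = 0 := by linear_combination h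
      exact sub_eq_zero.1 (pow_eq_zero_iff two_ne_zero |>.1 this))
    (by
      apply mul_left_cancel₀ hΔ0
      rw [hΔ] at hsum hprod ⊢
      linear_combination (r5 + r6) * hsum - 2 * hprod)
  exact ⟨-e, -f, l1, g1, l2, g2, by rw [q34, h1], by rw [q56, h2]⟩

/-- a nonzero polynomial in the coefficients does not vanish at all products `pF a` -/
theorem pF_dense (Φ : MvPolynomial (Fin 7) ℂ) (hΦ : Φ ≠ 0) :
    ∃ a : Fin 9 → ℂ, MvPolynomial.eval (fun i : Fin 7 => (pF a).coeff i) Φ ≠ 0 := by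
  -- a polynomial of degree six
  have h6 : Φ * MvPolynomial.X 6 ≠ 0 := mul_ne_zero hΦ (MvPolynomial.X_ne_zero 6)
  obtain ⟨c, hc⟩ : ∃ c : Fin 7 → ℂ, MvPolynomial.eval c (Φ * MvPolynomial.X 6) ≠ 0 := by
    by_contra hcon
    push Not at hcon
    exact h6 (MvPolynomial.funext fun x => by rw [hcon x, map_zero])
  rw [map_mul, MvPolynomial.eval_X] at hc
  have hc6 : c 6 ≠ 0 := right_ne_zero_of_mul hc
  have hcΦ := left_ne_zero_of_mul hc
  obtain ⟨p, hp⟩ : ∃ p : ℂ[X], p = ∑ i : Fin 7, C (c i) * X ^ (i : ℕ) := ⟨_, rfl⟩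
  have hpc : ∀ i : Fin 7, p.coeff i = c i := by
    intro i
    rw [hp, finsetSum_coeff]
    simp only [coeff_C_mul, coeff_X_pow]
    rw [Finset.sum_eq_single i]
    · simp
    · intro j _ hj
      have : (i : ℕ) ≠ (j : ℕ) := fun h => hj (Fin.ext h.symm)
      simp [this]
    · intro h
      exact absurd (Finset.mem_univ _) h
  have hpd : p.natDegree = 6 := by
    apply le_antisymm
    · rw [hp]
      refine natDegree_sum_le_of_forall_le _ _ fun i _ => ?_
      refine (natDegree_C_mul_X_pow_le _ _).trans ?_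
      have := i.2
      omega
    · apply le_natDegree_of_ne_zero
      rw [show (6 : ℕ) = ((6 : Fin 7) : ℕ) from rfl, hpc 6]
      exact hc6
  obtain ⟨r0, hr0⟩ := roots_fin 6 p hpd
  obtain ⟨a0, ha0⟩ : ∃ a0 : ℂ, a0 = p.leadingCoeff := ⟨_, rfl⟩
  rw [← ha0] at hr0
  -- the polynomial in the roots
  obtain ⟨F, hF⟩ : ∃ F : MvPolynomial (Fin 6) ℂ, ∀ r : Fin 6 → ℂ,
      MvPolynomial.eval r F = MvPolynomial.eval (fun k : Fin 7 => (C a0 * ∏ i, (X - C (r i)) : ℂ[X]).coeff k) Φ := by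
    refine ⟨MvPolynomial.aeval (fun k : Fin 7 =>
      ((C (MvPolynomial.C a0) * ∏ i : Fin 6, (X - C (MvPolynomial.X i)) : (MvPolynomial (Fin 6) ℂ)[X]).coeff k)) Φ, fun r => ?_⟩
    have h1 : ∀ k : ℕ, MvPolynomial.aeval r ((C (MvPolynomial.C a0) * ∏ i : Fin 6, (X - C (MvPolynomial.X i)) :
        (MvPolynomial (Fin 6) ℂ)[X]).coeff k) = (C a0 * ∏ i, (X - C (r i)) : ℂ[X]).coeff k := by
      intro k
      have h2 : (C (MvPolynomial.C a0) * ∏ i : Fin 6, (X - C (MvPolynomial.X i)) :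
          (MvPolynomial (Fin 6) ℂ)[X]).map (MvPolynomial.aeval r : MvPolynomial (Fin 6) ℂ →ₐ[ℂ] ℂ).toRingHom =
          (C a0 * ∏ i, (X - C (r i)) : ℂ[X]) := by
        rw [Polynomial.map_mul, Polynomial.map_prod]
        simp
      rw [← h2, coeff_map]
      rfl
    have h3 : MvPolynomial.aeval r (MvPolynomial.aeval (fun k : Fin 7 =>
      ((C (MvPolynomial.C a0) * ∏ i : Fin 6, (X - C (MvPolynomial.X i)) : (MvPolynomial (Fin 6) ℂ)[X]).coeff k)) Φ) =
        MvPolynomial.aeval (fun k : Fin 7 => (C a0 * ∏ i, (X - C (r i)) : ℂ[X]).coeff k) Φ := by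
      rw [← AlgHom.comp_apply]
      congr 1
      apply MvPolynomial.algHom_ext
      intro k
      rw [AlgHom.comp_apply, MvPolynomial.aeval_X, MvPolynomial.aeval_X]
      exact h1 k
    exact h3
  have hF0 : F ≠ 0 := by
    rintro rfl
    have h1 := hF r0
    rw [map_zero, ← hr0] at h1
    have h2 : (fun k : Fin 7 => p.coeff k) = c := funext hpc
    rw [h2] at h1
    exact hcΦ h1.symm
  obtain ⟨L, hL⟩ : ∃ L : MvPolynomial (Fin 6) ℂ, L = (MvPolynomial.X 2 - MvPolynomial.X 3) *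
      (MvPolynomial.X 4 - MvPolynomial.X 5) * (MvPolynomial.X 2 - MvPolynomial.X 4) * (MvPolynomial.X 2 - MvPolynomial.X 5) *
      (MvPolynomial.X 3 - MvPolynomial.X 4) * (MvPolynomial.X 3 - MvPolynomial.X 5) *
      (MvPolynomial.X 2 + MvPolynomial.X 3 - MvPolynomial.X 4 - MvPolynomial.X 5) := ⟨_, rfl⟩
  have hL0 : L ≠ 0 := by
    intro h
    have h1 := congrArg (MvPolynomial.eval (![0, 0, 1, 2, 4, 8] : Fin 6 → ℂ)) h
    rw [hL] at h1
    simp only [map_mul, map_sub, map_add, MvPolynomial.eval_X, map_zero, Matrix.cons_val] at h1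
    norm_num at h1
  obtain ⟨r, hr⟩ : ∃ r : Fin 6 → ℂ, MvPolynomial.eval r (F * L) ≠ 0 := by
    by_contra hcon
    push Not at hcon
    exact mul_ne_zero hF0 hL0 (MvPolynomial.funext fun x => by rw [hcon x, map_zero])
  rw [map_mul, hF, hL] at hr
  simp only [map_mul, map_sub, map_add, MvPolynomial.eval_X] at hr
  have hrΦ := left_ne_zero_of_mul hr
  have hrL := right_ne_zero_of_mul hr
  have k7 := right_ne_zero_of_mul hrL
  have hrL := left_ne_zero_of_mul hrL
  have k6 := right_ne_zero_of_mul hrL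
  have hrL := left_ne_zero_of_mul hrL
  have k5 := right_ne_zero_of_mul hrL
  have hrL := left_ne_zero_of_mul hrL
  have k4 := right_ne_zero_of_mul hrL
  have hrL := left_ne_zero_of_mul hrL
  have k3 := right_ne_zero_of_mul hrL
  have hrL := left_ne_zero_of_mul hrL
  have k2 := right_ne_zero_of_mul hrL
  have k1 := left_ne_zero_of_mul hrL
  obtain ⟨s, t, l1, g1, l2, g2, e1, e2⟩ := two_squares (r 2) (r 3) (r 4) (r 5) (sub_ne_zero.1 k1) (sub_ne_zero.1 k2)
    (sub_ne_zero.1 k3) (sub_ne_zero.1 k4) (sub_ne_zero.1 k5) (sub_ne_zero.1 k6) k7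
  obtain ⟨g0, hg0⟩ := IsAlgClosed.exists_pow_nat_eq (((r 0 - r 1) / 2) ^ 2 / 2) (n := 2) two_pos
  refine ⟨![a0, -(r 0 + r 1) / 2, g0, l1, g1, l2, g2, s, t], ?_⟩
  have hfin : pF (![a0, -(r 0 + r 1) / 2, g0, l1, g1, l2, g2, s, t] : Fin 9 → ℂ) = C a0 * ∏ i, (X - C (r i)) := by
    unfold pF
    simp only [Matrix.cons_val_zero, Matrix.cons_val_one, Matrix.cons_val]
    rw [← e1, ← e2]
    have e0 : (X + C (-(r 0 + r 1) / 2)) ^ 2 - C (2 * g0 ^ 2) = (X - C (r 0)) * (X - C (r 1)) := by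
      rw [hg0]
      have h1 : (2 : ℂ) * (((r 0 - r 1) / 2) ^ 2 / 2) = ((r 0 - r 1) / 2) ^ 2 := by ring
      rw [h1]
      have h2 : (C (-(r 0 + r 1) / 2) : ℂ[X]) ^ 2 - C (((r 0 - r 1) / 2) ^ 2) = C (r 0) * C (r 1) := by
        rw [← C_pow, ← C_sub, ← C_mul]
        congr 1
        ring
      have h3 : (2 : ℂ[X]) * C (-(r 0 + r 1) / 2) = -(C (r 0) + C (r 1)) := by
        have : (2 : ℂ[X]) = C 2 := rfl
        rw [this, ← C_mul, ← C_add, ← C_neg]
        congr 1
        ring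
      linear_combination h2 + X * h3
    rw [e0]
    simp only [Fin.prod_univ_succ, Fin.prod_univ_zero]
    simp only [mul_one]
    simp only [show Fin.succ (0 : Fin 5) = 1 from rfl, show (Fin.succ (Fin.succ (0 : Fin 4))) = (2 : Fin 6) from rfl,
      show Fin.succ (Fin.succ (Fin.succ (0 : Fin 3))) = (3 : Fin 6) from rfl,
      show Fin.succ (Fin.succ (Fin.succ (Fin.succ (0 : Fin 2)))) = (4 : Fin 6) from rfl,
      show Fin.succ (Fin.succ (Fin.succ (Fin.succ (Fin.succ (0 : Fin 1))))) = (5 : Fin 6) from rfl]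
    ring
  rw [hfin]
  exact hrΦ

end ZS
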