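import Pool.Agent.Lib.MP_1ad228_ntTS.Defs

/-!
# MP_1ad228_nt: genus two: the curves of the theorem are dense
-/

set_option autoImplicit false

namespace ZS

open ZG Polynomial

/-- Genus two: the curves `D w² = q_0 q_1 q_2` which satisfy the hypotheses of the theorem and have points over `ℝ` and over all `ℚ_p`, but no adelic zero-cycle of
degree one orthogonal to the classes `(q_i, β)` and no zero-cycle of degree one over `ℚ`, are Zariski dense among all curves `y² = f(x, z)` of genus two
(`y = D w`, `f = D q_0 q_1 q_2`): for every nonzero polynomial `Φ` in the seven coefficients of `f` there is such a curve with `Φ(f) ≠ 0`. -/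
def IsDense : Prop :=
  ∀ Φ : MvPolynomial (Fin 7) ℚ, Φ ≠ 0 → ∃ (q : Fin 3 → BQ) (D : ℤ),
    (∀ A : Finset (Fin 3), A.Nonempty → ¬ IsSquare (∏ i ∈ A, (q i).disc)) ∧ (Ed q).card ≤ 2 ∧
    Squarefree D ∧ ELS q D ∧ ¬ Adelic q D ∧ ¬ Global q D ∧
    MvPolynomial.eval (fun i : Fin 7 => ((D : ℚ[X]) * ∏ j, (q j).ev X 1).coeff i) Φ ≠ 0

end ZS
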