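import Pool.Agent.Lib.MP_1ad228_ntBr.TSI
import Pool.Agent.Lib.MP_1ad228_ntBr.TSC
import Pool.Agent.Lib.MP_1ad228_ntBr.TSDDef

/-! MP_1ad228_nt: `ZS.IsDense` -/

set_option autoImplicit false

namespace ZS

open ZG Polynomial

/-- the three forms for the parameters `a` -/
def qa (a : Fin 9 → ℤ) : Fin 3 → BQ :=
  ![⟨a 0, a 0 * (2 * a 1), a 0 * (a 1 ^ 2 - 2 * a 2 ^ 2)⟩,
    ⟨a 3 * (1 - 3 * a 4 ^ 2), a 3 * (2 * a 7 - 6 * a 4 ^ 2 * a 8), a 3 * (a 7 ^ 2 - 3 * a 4 ^ 2 * a 8 ^ 2)⟩,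
    ⟨a 5 * (1 - 5 * a 6 ^ 2), a 5 * (2 * a 7 - 10 * a 6 ^ 2 * a 8), a 5 * (a 7 ^ 2 - 5 * a 6 ^ 2 * a 8 ^ 2)⟩]

theorem qa_prod (a : Fin 9 → ℤ) : (∏ j, (qa a j).ev X 1 : ℚ[X]) = pF fun i => ((a i : ℤ) : ℚ) := by
  simp only [Fin.prod_univ_succ, Fin.prod_univ_zero, mul_one]
  unfold qa pF BQ.ev
  simp only [Matrix.cons_val_zero, Matrix.cons_val_succ]
  simp only [← Polynomial.C_eq_intCast]
  push_cast
  simp only [C_mul, C_sub, C_pow, C_1, map_ofNat, one_pow, mul_one]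
  ring

theorem qa_disc (a : Fin 9 → ℤ) : (qa a 0).disc = 2 * (2 * a 0 * a 2) ^ 2 ∧ (qa a 1).disc = 3 * (2 * a 3 * a 4 * (a 7 - a 8)) ^ 2 ∧
    (qa a 2).disc = 5 * (2 * a 5 * a 6 * (a 7 - a 8)) ^ 2 := by
  refine ⟨?_, ?_, ?_⟩ <;> (simp only [qa, BQ.disc, Matrix.cons_val_zero, Matrix.cons_val_one, Matrix.cons_val]; ring)

theorem qa_res (a : Fin 9 → ℤ) : IsSquare ((qa a 1).res (qa a 2)) := by
  refine ⟨a 3 * a 5 * (3 * a 4 ^ 2 - 5 * a 6 ^ 2) * (a 7 - a 8) ^ 2, ?_⟩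
  simp only [qa, BQ.res, Matrix.cons_val_zero, Matrix.cons_val_one, Matrix.cons_val]
  ring

theorem sq_of_mul {x m : ℤ} (hm : m ≠ 0) (h : IsSquare (x * m ^ 2)) : IsSquare x := by
  obtain ⟨y, hy⟩ := h
  have h1 : m ^ 2 ∣ y ^ 2 := ⟨x, by rw [sq y, ← hy]; ring⟩
  rw [Int.pow_dvd_pow_iff two_ne_zero] at h1
  obtain ⟨z, rfl⟩ := h1
  refine ⟨z, ?_⟩
  apply mul_right_cancel₀ (pow_ne_zero 2 hm)
  rw [hy]
  ring

theorem qa_gen (a : Fin 9 → ℤ) (h0 : a 0 ≠ 0) (h2 : a 2 ≠ 0) (h3 : a 3 ≠ 0) (h4 : a 4 ≠ 0) (h5 : a 5 ≠ 0) (h6 : a 6 ≠ 0)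
    (h78 : a 7 - a 8 ≠ 0) : Gen (qa a) := by
  obtain ⟨d0, d1, d2⟩ := qa_disc a
  refine ⟨by norm_num, ?_, ?_, fun h => absurd h (by norm_num)⟩
  · obtain ⟨m, hm⟩ : ∃ m : Fin 3 → ℤ, m = ![2 * a 0 * a 2, 2 * a 3 * a 4 * (a 7 - a 8), 2 * a 5 * a 6 * (a 7 - a 8)] := ⟨_, rfl⟩
    obtain ⟨e, he⟩ : ∃ e : Fin 3 → ℤ, e = ![2, 3, 5] := ⟨_, rfl⟩
    have hd : ∀ i, (qa a i).disc = e i * m i ^ 2 := by
      intro i
      rw [he, hm]
      fin_cases i
      · exact d0
      · exact d1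
      · exact d2
    have hm0 : ∀ i, m i ≠ 0 := by
      intro i
      rw [hm]
      fin_cases i
      · exact mul_ne_zero (mul_ne_zero two_ne_zero h0) h2
      · exact mul_ne_zero (mul_ne_zero (mul_ne_zero two_ne_zero h3) h4) h78
      · exact mul_ne_zero (mul_ne_zero (mul_ne_zero two_ne_zero h5) h6) h78
    intro A hA hsq
    rw [Finset.prod_congr rfl fun i _ => hd i, Finset.prod_mul_distrib, Finset.prod_pow] at hsq
    have h1 := sq_of_mul (Finset.prod_ne_zero_iff.2 fun i _ => hm0 i) hsq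
    have key : ∀ A : Finset (Fin 3), A.Nonempty → ∏ i ∈ A, (![2, 3, 5] : Fin 3 → ℤ) i ∈ ([2, 3, 5, 6, 10, 15, 30] : List ℤ) := by
      decide
    rw [he] at h1
    obtain ⟨z, hz⟩ := h1
    have h2 := key A hA
    rw [hz] at h2
    have z1 : -6 < z := by
      by_contra hcon
      have h3 : 36 ≤ z * z := by nlinarith
      simp only [List.mem_cons, List.not_mem_nil, or_false] at h2
      omega
    have z2 : z < 6 := by
      by_contra hcon
      have h3 : 36 ≤ z * z := by nlinarith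
      simp only [List.mem_cons, List.not_mem_nil, or_false] at h2
      omega
    interval_cases z <;> revert h2 <;> decide
  · have hsub : Ed (qa a) ⊆ {((0 : Fin 3), (1 : Fin 3)), ((0 : Fin 3), (2 : Fin 3))} := by
      intro x hx
      unfold Ed at hx
      rw [Finset.mem_filter] at hx
      obtain ⟨-, hx1, hx2⟩ := hx
      obtain ⟨i, j⟩ := x
      simp only at hx1 hx2
      fin_cases i <;> fin_cases j
      · exact absurd hx1 (by decide)
      · exact Finset.mem_insert_self _ _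
      · exact Finset.mem_insert_of_mem (Finset.mem_singleton_self _)
      · exact absurd hx1 (by decide)
      · exact absurd hx1 (by decide)
      · exact absurd (qa_res a) hx2
      · exact absurd hx1 (by decide)
      · exact absurd hx1 (by decide)
      · exact absurd hx1 (by decide)
    have h1 := Finset.card_le_card hsub
    have h2 : ({((0 : Fin 3), (1 : Fin 3)), ((0 : Fin 3), (2 : Fin 3))} : Finset (Fin 3 × Fin 3)).card = 2 := by decide
    omega

/-- the polynomial on the parameters -/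
noncomputable def psiP (Φ : MvPolynomial (Fin 7) ℚ) : MvPolynomial (Fin 9) ℚ :=
  MvPolynomial.aeval (fun i : Fin 7 => (pF (MvPolynomial.X : Fin 9 → MvPolynomial (Fin 9) ℚ)).coeff i) Φ

theorem psiP_aeval (Φ : MvPolynomial (Fin 7) ℚ) {S : Type} [CommRing S] [Algebra ℚ S] (a : Fin 9 → S) :
    MvPolynomial.aeval a (psiP Φ) = MvPolynomial.aeval (fun i : Fin 7 => (pF a).coeff i) Φ := by
  unfold psiP
  rw [← AlgHom.comp_apply]
  congr 1
  apply MvPolynomial.algHom_ext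
  intro i
  rw [AlgHom.comp_apply, MvPolynomial.aeval_X, MvPolynomial.aeval_X]
  have h := pF_map (MvPolynomial.aeval a : MvPolynomial (Fin 9) ℚ →ₐ[ℚ] S).toRingHom MvPolynomial.X
  have h2 := congrArg (fun p : S[X] => p.coeff i) h
  simp only [coeff_map] at h2
  simpa using h2

theorem psiP_ne {Φ : MvPolynomial (Fin 7) ℚ} (hΦ : Φ ≠ 0) : psiP Φ ≠ 0 := by
  intro h0
  obtain ⟨a, ha⟩ := pF_dense (MvPolynomial.map (algebraMap ℚ ℂ) Φ) (by
    intro h
    exact hΦ (MvPolynomial.map_injective (algebraMap ℚ ℂ) (algebraMap ℚ ℂ).injective (by rw [h, map_zero])))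
  apply ha
  have h := psiP_aeval Φ a
  rw [h0, map_zero] at h
  rw [MvPolynomial.eval_map]
  exact h.symm

theorem isDense : IsDense := by
  intro Φ hΦ
  obtain ⟨L, hL⟩ : ∃ L : MvPolynomial (Fin 9) ℚ, L = MvPolynomial.X 0 * MvPolynomial.X 2 * MvPolynomial.X 3 * MvPolynomial.X 4 *
    MvPolynomial.X 5 * MvPolynomial.X 6 * (MvPolynomial.X 7 - MvPolynomial.X 8) := ⟨_, rfl⟩
  have hL0 : L ≠ 0 := by
    intro h
    have h1 := congrArg (MvPolynomial.eval (![1, 1, 1, 1, 1, 1, 1, 1, 0] : Fin 9 → ℚ)) h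
    rw [hL] at h1
    simp only [map_mul, map_sub, MvPolynomial.eval_X, map_zero, Matrix.cons_val] at h1
    norm_num at h1
  have hPL : psiP Φ * L ≠ 0 := mul_ne_zero (psiP_ne hΦ) hL0
  obtain ⟨a, ha⟩ : ∃ a : Fin 9 → ℤ, MvPolynomial.eval (fun i => ((a i : ℤ) : ℚ)) (psiP Φ * L) ≠ 0 := by
    by_contra hcon
    push Not at hcon
    apply hPL
    refine MvPolynomial.funext_set (fun _ => Set.range (Int.cast : ℤ → ℚ))
      (fun _ => Set.infinite_range_of_injective Int.cast_injective) fun x hx => ?_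
    have hx' : ∀ i, ∃ z : ℤ, (z : ℚ) = x i := fun i => hx i (Set.mem_univ i)
    choose z hz using hx'
    have : x = fun i => ((z i : ℤ) : ℚ) := funext fun i => (hz i).symm
    rw [this, hcon z, map_zero]
  rw [map_mul] at ha
  have ha1 := left_ne_zero_of_mul ha
  have ha2 := right_ne_zero_of_mul ha
  rw [hL] at ha2
  simp only [map_mul, map_sub, MvPolynomial.eval_X] at ha2
  have n78 := right_ne_zero_of_mul ha2
  have ha2 := left_ne_zero_of_mul ha2
  have n6 := right_ne_zero_of_mul ha2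
  have ha2 := left_ne_zero_of_mul ha2
  have n5 := right_ne_zero_of_mul ha2
  have ha2 := left_ne_zero_of_mul ha2
  have n4 := right_ne_zero_of_mul ha2
  have ha2 := left_ne_zero_of_mul ha2
  have n3 := right_ne_zero_of_mul ha2
  have ha2 := left_ne_zero_of_mul ha2
  have n2 := right_ne_zero_of_mul ha2
  have n0 := left_ne_zero_of_mul ha2
  have hG : Gen (qa a) := qa_gen a (Int.cast_ne_zero.1 n0) (Int.cast_ne_zero.1 n2) (Int.cast_ne_zero.1 n3) (Int.cast_ne_zero.1 n4)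
    (Int.cast_ne_zero.1 n5) (Int.cast_ne_zero.1 n6) (by
      intro h
      apply n78
      exact_mod_cast congrArg (Int.cast : ℤ → ℚ) h)
  have hval : MvPolynomial.eval (fun i : Fin 7 => (∏ j, (qa a j).ev X 1 : ℚ[X]).coeff i) Φ ≠ 0 := by
    rw [qa_prod]
    have h := psiP_aeval Φ (S := ℚ) (fun i => ((a i : ℤ) : ℚ))
    intro h0
    exact ha1 (h.trans h0)
  -- the dependence on `D`
  obtain ⟨P, hP⟩ : ∃ P : ℚ[X], ∀ T : ℚ, P.eval T = MvPolynomial.eval (fun i : Fin 7 => T * (∏ j, (qa a j).ev X 1 : ℚ[X]).coeff i) Φ := by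
    refine ⟨MvPolynomial.aeval (fun i : Fin 7 => X * C ((∏ j, (qa a j).ev X 1 : ℚ[X]).coeff i)) Φ, fun T => ?_⟩
    have h1 : (aeval T : ℚ[X] →ₐ[ℚ] ℚ) (MvPolynomial.aeval (fun i : Fin 7 => X * C ((∏ j, (qa a j).ev X 1 : ℚ[X]).coeff i)) Φ) =
        MvPolynomial.aeval (fun i : Fin 7 => T * (∏ j, (qa a j).ev X 1 : ℚ[X]).coeff i) Φ := by
      rw [← AlgHom.comp_apply]
      congr 1
      apply MvPolynomial.algHom_ext
      intro i
      rw [AlgHom.comp_apply, MvPolynomial.aeval_X, MvPolynomial.aeval_X, map_mul, aeval_X, aeval_C]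
      rfl
    exact h1
  have hP0 : P ≠ 0 := by
    rintro rfl
    have h1 := hP 1
    simp only [one_mul, eval_zero] at h1
    exact hval h1.symm
  have hZ : {D : ℤ | P.eval (D : ℚ) = 0}.Finite := by
    have h1 : {x : ℚ | P.eval x = 0}.Finite := by
      refine (P.roots.toFinset.finite_toSet).subset fun x hx => ?_
      rw [Finset.mem_coe, Multiset.mem_toFinset, mem_roots hP0]
      exact hx
    exact h1.preimage (Int.cast_injective.injOn)
  obtain ⟨D, e1, e2, e3, e4, e5⟩ := exists_good hG _ hZ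
  refine ⟨qa a, D, hG.ind, by have := hG.edges; omega, e1, e2, e3, e4, ?_⟩
  intro h
  apply e5
  show P.eval (D : ℚ) = 0
  rw [hP]
  rw [← h]
  congr 1
  congr 1
  funext i
  rw [← Polynomial.C_eq_intCast, coeff_C_mul]

end ZS
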