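import Pool.Agent.Lib.MP_1ad228_ntTS.Defs

/-! MP_1ad228_nt: some twist has a rational point -/

set_option autoImplicit false

namespace ZS

open ZG Finset

/-- every nonzero integer is a square times a squarefree integer -/
theorem int_sqfree {a : ℤ} (ha : a ≠ 0) : ∃ D b : ℤ, Squarefree D ∧ a = D * b ^ 2 := by
  obtain ⟨m, n, h1, h2⟩ := Nat.sq_mul_squarefree a.natAbs
  refine ⟨a.sign * m, n, ?_, ?_⟩
  · rcases lt_or_gt_of_ne ha with h | h
    · rw [Int.sign_eq_neg_one_of_neg h, neg_one_mul, Int.squarefree_natAbs.symm, Int.natAbs_neg, Int.natAbs_natCast]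
      exact h2
    · rw [Int.sign_eq_one_of_pos h, one_mul, Int.squarefree_natCast]
      exact h2
  · have h3 := Int.sign_mul_natAbs a
    rw [← h1] at h3
    push_cast at h3
    exact h3.symm.trans (by ring)

/-- the twist by the squarefree part of the product of the leading coefficients has the rational point `(1 : 0)` -/
theorem exists_ELS {k : ℕ} {q : Fin k → BQ} (hA : ∀ i, (q i).A ≠ 0) : ∃ D : ℤ, Squarefree D ∧ ELS q D := by
  obtain ⟨D, b, hD, hb⟩ := int_sqfree (Finset.prod_ne_zero_iff.2 fun i (_ : i ∈ (univ : Finset (Fin k))) => hA i)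
  have key : ∀ (F : Type) [Field F], HasPoint F q D := by
    intro F _
    refine ⟨1, 0, (b : F), by simp, ?_⟩
    have h1 := congrArg (fun z : ℤ => (z : F)) hb
    push_cast at h1
    have h2 : ∀ i, (q i).ev (1 : F) 0 = ((q i).A : F) := by
      intro i
      unfold BQ.ev
      ring
    rw [Finset.prod_congr rfl fun i _ => h2 i]
    exact h1.symm
  exact ⟨D, hD, key ℝ, fun p _ => key ℚ_[p]⟩

end ZS
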