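import Pool.Agent.Lib.MP_1ad228_ntTS.Main
import Pool.Agent.Lib.MP_1ad228_ntBr.TSE

/-! MP_1ad228_nt: infinitely many twists have points everywhere locally but no zero-cycle of degree one -/

set_option autoImplicit false

namespace ZS

open ZG Finset Filter

theorem br_lim (C c M u v : ℝ) (hc : 0 < c) (_hu : 0 ≤ u) (hu1 : u ≤ 1) (huv : u < v) :
    ∃ N1 : ℕ, ∀ N : ℕ, N1 ≤ N → C * N / Real.log N ^ v + M < c * N / Real.log N ^ u := by
  have t0 : Tendsto (fun N : ℕ => Real.log (N : ℝ)) atTop atTop := Real.tendsto_log_atTop.comp tendsto_natCast_atTop_atTop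
  have t1 : Tendsto (fun N : ℕ => C * Real.log (N : ℝ) ^ (-(v - u))) atTop (nhds 0) := by
    have := ((tendsto_rpow_neg_atTop (sub_pos.2 huv)).comp t0).const_mul C
    simpa using this
  have t2 : Tendsto (fun N : ℕ => |M| * (Real.log (N : ℝ) / N)) atTop (nhds 0) := by
    have h1 : Tendsto (fun x : ℝ => Real.log x / x) atTop (nhds 0) := by
      have := Real.isLittleO_log_id_atTop
      exact this.tendsto_div_nhds_zero
    have := ((h1.comp tendsto_natCast_atTop_atTop).const_mul |M|)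
    simpa using this
  have t3 := t1.add t2
  rw [add_zero] at t3
  have he := (t3.eventually (gt_mem_nhds hc)).and ((eventually_ge_atTop 3).and (t0.eventually (eventually_ge_atTop 1)))
  obtain ⟨N1, hN1⟩ := eventually_atTop.1 he
  refine ⟨N1, fun N hN => ?_⟩
  obtain ⟨h1, h2, h3⟩ := hN1 N hN
  have hN0 : (0 : ℝ) < N := by
    have : 0 < N := by omega
    exact_mod_cast this
  have hl0 : 0 < Real.log (N : ℝ) := by linarith
  have hlu : 0 < Real.log (N : ℝ) ^ u := Real.rpow_pos_of_pos hl0 u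
  have hl1 : Real.log (N : ℝ) ^ u ≤ Real.log N := by
    calc Real.log (N : ℝ) ^ u ≤ Real.log (N : ℝ) ^ (1 : ℝ) := Real.rpow_le_rpow_of_exponent_le h3 hu1
      _ = Real.log N := Real.rpow_one _
  rw [lt_div_iff₀ hlu]
  have e1 : C * N / Real.log (N : ℝ) ^ v * Real.log (N : ℝ) ^ u = C * Real.log (N : ℝ) ^ (-(v - u)) * N := by
    have : Real.log (N : ℝ) ^ (-(v - u)) = Real.log (N : ℝ) ^ u / Real.log (N : ℝ) ^ v := by
      rw [neg_sub, Real.rpow_sub hl0]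
    rw [this]
    field_simp
  have e2 : M * Real.log (N : ℝ) ^ u ≤ |M| * (Real.log (N : ℝ) / N) * N := by
    have : |M| * (Real.log (N : ℝ) / N) * N = |M| * Real.log N := by
      field_simp
    rw [this]
    calc M * Real.log (N : ℝ) ^ u ≤ |M| * Real.log (N : ℝ) ^ u := mul_le_mul_of_nonneg_right (le_abs_self M) hlu.le
      _ ≤ |M| * Real.log N := mul_le_mul_of_nonneg_left hl1 (abs_nonneg M)
  calc (C * N / Real.log (N : ℝ) ^ v + M) * Real.log (N : ℝ) ^ u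
      = C * Real.log (N : ℝ) ^ (-(v - u)) * N + M * Real.log (N : ℝ) ^ u := by rw [add_mul, e1]
    _ ≤ C * Real.log (N : ℝ) ^ (-(v - u)) * N + |M| * (Real.log (N : ℝ) / N) * N := by linarith
    _ = (C * Real.log (N : ℝ) ^ (-(v - u)) + |M| * (Real.log (N : ℝ) / N)) * N := by ring
    _ < c * N := mul_lt_mul_of_pos_right h1 hN0

theorem exists_good {k : ℕ} {q : Fin k → BQ} (hq : Gen q) (Z : Set ℤ) (hZ : Z.Finite) :
    ∃ D : ℤ, Squarefree D ∧ ELS q D ∧ ¬ Adelic q D ∧ ¬ Global q D ∧ D ∉ Z := by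
  obtain ⟨⟨C, h1⟩, h2⟩ := finalS hq
  obtain ⟨c, N0, hc, h3⟩ := h2 (exists_ELS hq.A)
  obtain ⟨N1, hN1⟩ := br_lim C c Z.ncard ((1 / 2) ^ k) ((1 + 1 / 2000) * (1 / 2) ^ k) hc (by positivity)
    (pow_le_one₀ (by norm_num) (by norm_num))
    (by
      have : (0 : ℝ) < (1 / 2) ^ k := by positivity
      linarith)
  by_contra hcon
  obtain ⟨N, hN⟩ : ∃ N : ℕ, N = max (max 2 N0) N1 := ⟨_, rfl⟩
  have hNa : 2 ≤ N := by rw [hN]; exact (le_max_left _ _).trans (le_max_left _ _)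
  have hNb : N0 ≤ N := by rw [hN]; exact (le_max_right _ _).trans (le_max_left _ _)
  have hNc : N1 ≤ N := by rw [hN]; exact le_max_right _ _
  have g1 := h1 N hNa
  have g2 := h3 N hNb
  have g3 := hN1 N hNc
  have hbox : {D : ℤ | |D| ≤ (N : ℤ)}.Finite := by
    refine (Set.finite_Icc (-(N : ℤ)) N).subset fun D hD => ?_
    exact abs_le.1 hD
  have e1 : Nat.card {D : ℤ // Squarefree D ∧ |D| ≤ (N : ℤ) ∧ (Adelic q D ∨ Global q D)} =
      {D : ℤ | Squarefree D ∧ |D| ≤ (N : ℤ) ∧ (Adelic q D ∨ Global q D)}.ncard := rfl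
  have e2 : Nat.card {D : ℤ // Squarefree D ∧ |D| ≤ (N : ℤ) ∧ ELS q D} =
      {D : ℤ | Squarefree D ∧ |D| ≤ (N : ℤ) ∧ ELS q D}.ncard := rfl
  rw [e1] at g1
  rw [e2] at g2
  have hsub : {D : ℤ | Squarefree D ∧ |D| ≤ (N : ℤ) ∧ ELS q D} ⊆
      {D : ℤ | Squarefree D ∧ |D| ≤ (N : ℤ) ∧ (Adelic q D ∨ Global q D)} ∪ Z := by
    rintro D ⟨a1, a2, a3⟩
    by_cases a4 : Adelic q D ∨ Global q D
    · exact Or.inl ⟨a1, a2, a4⟩
    · right
      by_contra a5
      push Not at a4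
      exact hcon ⟨D, a1, a3, a4.1, a4.2, a5⟩
  have f1 : {D : ℤ | Squarefree D ∧ |D| ≤ (N : ℤ) ∧ (Adelic q D ∨ Global q D)}.Finite :=
    hbox.subset fun D hD => hD.2.1
  have k1 := (Set.ncard_le_ncard hsub (f1.union hZ)).trans (Set.ncard_union_le _ _)
  have k2 : (({D : ℤ | Squarefree D ∧ |D| ≤ (N : ℤ) ∧ ELS q D}.ncard : ℕ) : ℝ) ≤
      ({D : ℤ | Squarefree D ∧ |D| ≤ (N : ℤ) ∧ (Adelic q D ∨ Global q D)}.ncard : ℝ) + (Z.ncard : ℝ) := by
    exact_mod_cast k1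
  linarith

end ZS
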