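import Mathlib

/-! MP_1ad228_nt: lemmas on valuation rings -/

set_option autoImplicit false

namespace ValBr

variable {O F : Type} [CommRing O] [IsDomain O] [ValuationRing O] [Field F] [Algebra O F] [IsFractionRing O F]

theorem int_or (x : F) : (∃ a : O, algebraMap O F a = x) ∨ ∃ a : O, algebraMap O F a = x⁻¹ :=
  ValuationRing.isInteger_or_isInteger O x

/-- homogeneous coordinates in the valuation ring, one of them equal to one -/
theorem scale (O : Type) {F : Type} [CommRing O] [IsDomain O] [ValuationRing O] [Field F] [Algebra O F] [IsFractionRing O F]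
    {x z : F} (h : ¬ (x = 0 ∧ z = 0)) :
    ∃ (c : F) (x' z' : O), c ≠ 0 ∧ x = c * algebraMap O F x' ∧ z = c * algebraMap O F z' ∧ (x' = 1 ∨ z' = 1) := by
  by_cases hx : x = 0
  · have hz : z ≠ 0 := fun hz => h ⟨hx, hz⟩
    exact ⟨z, 0, 1, hz, by simp [hx], by simp, Or.inr rfl⟩
  · rcases int_or (O := O) (z / x) with ⟨a, h1⟩ | ⟨a, h1⟩
    · exact ⟨x, 1, a, hx, by simp, by rw [h1]; field_simp, Or.inl rfl⟩
    · by_cases hz : z = 0
      · exact ⟨x, 1, 0, hx, by simp, by simp [hz], Or.inl rfl⟩
      · exact ⟨z, a, 1, hz, by rw [h1]; field_simp, by simp, Or.inr rfl⟩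

/-- the residues of normalised homogeneous coordinates are not both zero -/
theorem scale_res {x z : O} (h : x = 1 ∨ z = 1) :
    ¬ (IsLocalRing.residue O x = 0 ∧ IsLocalRing.residue O z = 0) := by
  rcases h with rfl | rfl
  · rw [map_one]; exact fun h => one_ne_zero h.1
  · rw [map_one]; exact fun h => one_ne_zero h.2

/-- an element of the fraction field whose square is in the valuation ring -/
theorem mem_of_sq {t : F} (a : O) (h : t ^ 2 = algebraMap O F a) : ∃ y : O, algebraMap O F y = t := by
  rcases int_or (O := O) t with h1 | ⟨b, h1⟩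
  · exact h1
  · by_cases ht : t = 0
    · exact ⟨0, by rw [map_zero, ht]⟩
    · refine ⟨b * a, ?_⟩
      rw [map_mul, h1, ← h]
      field_simp

/-- an element `a` of the valuation ring which is a square in the fraction field -/
theorem sq_of {t : F} (a : O) (h : t ^ 2 = algebraMap O F a) : ∃ y : O, a = y ^ 2 := by
  obtain ⟨y, hy⟩ := mem_of_sq a h
  refine ⟨y, IsFractionRing.injective O F ?_⟩
  rw [map_pow, hy, h]

omit [IsDomain O] [ValuationRing O] in
/-- if `v w` is a square and `w` is a unit then `v` is a unit times a square -/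
theorem unitSq (F : Type) [Field F] [Algebra O F] {v w : O} (h : ∃ y : O, v * w = y ^ 2) (hw : IsUnit w) :
    ∃ (u : Oˣ) (s : F), algebraMap O F v = algebraMap O F u * s ^ 2 := by
  obtain ⟨y, h⟩ := h
  obtain ⟨u, rfl⟩ := hw
  refine ⟨u⁻¹, algebraMap O F y, ?_⟩
  have h1 : v = (u⁻¹ : Oˣ) * y ^ 2 := by
    have h2 : v = (v * u) * (u⁻¹ : Oˣ) := by rw [mul_assoc, Units.mul_inv, mul_one]
    rw [h2, h]
    ring
  have h2 := congrArg (algebraMap O F) h1
  rw [map_mul, map_pow] at h2
  exact h2

/-- If `v = u s² ≠ 0`, `u` a unit, `v w` is a square, and `f` is a homomorphism to a field then `f(u) f(w)` is a square. -/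
theorem value {K : Type} [Field K] (f : O →+* K) (u : Oˣ) {s : F} {v w : O}
    (hs : algebraMap O F v = algebraMap O F u * s ^ 2)
    (h0 : v ≠ 0) (h : ∃ y : O, v * w = y ^ 2) : IsSquare (f u * f w) := by
  obtain ⟨y, h⟩ := h
  have hs0 : s ≠ 0 := by
    rintro rfl
    apply h0
    apply IsFractionRing.injective O F
    rw [hs, map_zero]
    ring
  have h1 : (algebraMap O F y / s) ^ 2 = algebraMap O F ((u : O) * w) := by
    have h2 := congrArg (algebraMap O F) h
    rw [map_mul, map_pow, hs] at h2
    rw [map_mul, div_pow, div_eq_iff (pow_ne_zero 2 hs0)]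
    linear_combination (-1 : F) * h2
  obtain ⟨t, ht⟩ := sq_of _ h1
  refine ⟨f t, ?_⟩
  rw [← map_mul f, ht, map_pow, sq]

/-- a field which is the target of a homomorphism from a `ℚ`-algebra -/
theorem charZero_of {O : Type} [CommRing O] [Algebra ℚ O] {K : Type} [Field K] (f : O →+* K) : CharZero K :=
  charZero_of_injective_ringHom (f.comp (algebraMap ℚ O)).injective

end ValBr
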